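import Pool.Agent.K7.H1.TO.Def
set_option autoImplicit false

/-!
The varieties `λ Φ_F(x) = Φ_G(y)` in the product of two tori, for two arrangements of subtori
`F`, `G`, and symbols on them.
-/

namespace Pool.Agent.K7.H1.PP

open MvPolynomial

open Pool.Agent.K7.H1.TO

/-- The ring of the polynomials in `x_j`, `x_j⁻¹` (`j ≤ d`), `y_j`, `y_j⁻¹` (`j ≤ q`) and one more
variable `t`. -/
abbrev PolP (K : Type*) [Field K] (d q : ℕ) : Type _ :=
  MvPolynomial ((Fin (d + 1) ⊕ Fin (d + 1)) ⊕ ((Fin (q + 1) ⊕ Fin (q + 1)) ⊕ Unit)) K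

section ring

variable {K : Type*} [Field K] {d q m m' : ℕ}

/-- The Laurent polynomials in `x` in the ring of all polynomials. -/
noncomputable def inX : Pol K d →+* PolP K d q := (rename Sum.inl : _ →ₐ[K] _).toRingHom

/-- The Laurent polynomials in `y` in the ring of all polynomials. -/
noncomputable def inY : Pol K q →+* PolP K d q :=
  (rename fun i => Sum.inr (Sum.inl i) : _ →ₐ[K] _).toRingHom

/-- the variable `t` -/
noncomputable def tv : PolP K d q := X (Sum.inr (Sum.inr ()))

variable (F : Arr K d m) (G : Arr K q m') (lam : K)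

/-- The ideal generated by `λ Φ_F(x) t - 1`, `Φ_G(y) t - 1`, `x_j x_j⁻¹ - 1`, `y_j y_j⁻¹ - 1`, where
`Φ_F(x) = F.Phi 1`. -/
noncomputable def idealP : Ideal (PolP K d q) :=
  Ideal.span (insert (inX (F.Phi lam) * tv - 1) (insert (inY (G.Phi 1) * tv - 1)
    ((Set.range fun j : Fin (d + 1) => inX (X (Sum.inl j) * X (Sum.inr j) - 1)) ∪
      Set.range fun j : Fin (q + 1) => inY (X (Sum.inl j) * X (Sum.inr j) - 1))))

/-- The coordinate ring of the variety `λ Φ_F(x) = Φ_G(y) ≠ 0` in the product of two tori. -/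
def PRing : Type _ := PolP K d q ⧸ idealP F G lam

noncomputable instance : CommRing (PRing F G lam) :=
  Ideal.Quotient.commRing (idealP F G lam)

/-- The polynomials as functions on the variety. -/
noncomputable def pmk : PolP K d q →+* PRing F G lam := Ideal.Quotient.mk (idealP F G lam)

/-- The Laurent polynomials in `x` as functions on the variety. -/
noncomputable def px : Pol K d →+* PRing F G lam := (pmk F G lam).comp inX

/-- The Laurent polynomials in `y` as functions on the variety. -/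
noncomputable def py : Pol K q →+* PRing F G lam := (pmk F G lam).comp inY

/-- The constants. -/
noncomputable def pcst : K →+* PRing F G lam := (pmk F G lam).comp C

/-- the function `t` -/
noncomputable def pt : PRing F G lam := pmk F G lam tv

theorem pmk_zero {p : PolP K d q} (h : p ∈ idealP F G lam) : pmk F G lam p = 0 :=
  Ideal.Quotient.eq_zero_iff_mem.2 h

theorem px_Phi : px F G lam (F.Phi lam) * pt F G lam = 1 := by
  have h := pmk_zero F G lam (p := inX (F.Phi lam) * tv - 1)
    (Ideal.subset_span (Set.mem_insert _ _))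
  rw [map_sub, map_one, map_mul, sub_eq_zero] at h
  exact h

theorem py_Phi : py F G lam (G.Phi 1) * pt F G lam = 1 := by
  have h := pmk_zero F G lam (p := inY (G.Phi 1) * tv - 1)
    (Ideal.subset_span (Set.mem_insert_of_mem _ (Set.mem_insert _ _)))
  rw [map_sub, map_one, map_mul, sub_eq_zero] at h
  exact h

theorem px_X (j : Fin (d + 1)) :
    px F G lam (X (Sum.inl j)) * px F G lam (X (Sum.inr j)) = 1 := by
  have h := pmk_zero F G lam (p := inX (X (Sum.inl j) * X (Sum.inr j) - 1))
    (Ideal.subset_span (Set.mem_insert_of_mem _ (Set.mem_insert_of_mem _ (Or.inl ⟨j, rfl⟩))))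
  rw [map_sub, map_one, map_mul, map_sub, map_one, map_mul, sub_eq_zero] at h
  exact h

theorem py_X (j : Fin (q + 1)) :
    py F G lam (X (Sum.inl j)) * py F G lam (X (Sum.inr j)) = 1 := by
  have h := pmk_zero F G lam (p := inY (X (Sum.inl j) * X (Sum.inr j) - 1))
    (Ideal.subset_span (Set.mem_insert_of_mem _ (Set.mem_insert_of_mem _ (Or.inr ⟨j, rfl⟩))))
  rw [map_sub, map_one, map_mul, map_sub, map_one, map_mul, sub_eq_zero] at h
  exact h

/-- the unit `x_j` -/
noncomputable def ux (j : Fin (d + 1)) : (PRing F G lam)ˣ where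
  val := px F G lam (X (Sum.inl j))
  inv := px F G lam (X (Sum.inr j))
  val_inv := px_X F G lam j
  inv_val := by rw [mul_comm]; exact px_X F G lam j

/-- the unit `y_j` -/
noncomputable def uy (j : Fin (q + 1)) : (PRing F G lam)ˣ where
  val := py F G lam (X (Sum.inl j))
  inv := py F G lam (X (Sum.inr j))
  val_inv := py_X F G lam j
  inv_val := by rw [mul_comm]; exact py_X F G lam j

theorem fac_dvd {n k : ℕ} (H : Arr K n k) (c : K) (e : Fin k) (i : Fin (H.r e + 1)) :
    H.fac e i ∣ H.Phi c := by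
  unfold Arr.Phi
  refine Dvd.dvd.mul_left ?_ _
  refine (dvd_pow_self _ (Nat.succ_ne_zero (H.w e i))).trans ?_
  refine (Finset.dvd_prod_of_mem (fun i => H.fac e i ^ (H.w e i + 1)) (Finset.mem_univ i)).trans ?_
  exact Finset.dvd_prod_of_mem (fun e => ∏ i, H.fac e i ^ (H.w e i + 1)) (Finset.mem_univ e)

theorem isUnit_fx (e : Fin m) (i : Fin (F.r e + 1)) : IsUnit (px F G lam (F.fac e i)) := by
  refine isUnit_of_dvd_one ?_
  rw [← px_Phi F G lam]
  exact Dvd.dvd.mul_right (map_dvd _ (fac_dvd F lam e i)) _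

theorem isUnit_fy (e : Fin m') (i : Fin (G.r e + 1)) : IsUnit (py F G lam (G.fac e i)) := by
  refine isUnit_of_dvd_one ?_
  rw [← py_Phi F G lam]
  exact Dvd.dvd.mul_right (map_dvd _ (fac_dvd G 1 e i)) _

/-- the unit `x^{α_e} - ζ_{e,i}` of the arrangement `F` -/
noncomputable def fx (e : Fin m) (i : Fin (F.r e + 1)) : (PRing F G lam)ˣ :=
  (isUnit_fx F G lam e i).unit

/-- the unit `y^{α_e} - ζ_{e,i}` of the arrangement `G` -/
noncomputable def fy (e : Fin m') (i : Fin (G.r e + 1)) : (PRing F G lam)ˣ :=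
  (isUnit_fy F G lam e i).unit

/-- The entries `(x^α - ζ_{e,k_l+1}) / (x^α - ζ_{e,0})`, `e = T_l`, `α = α_e`, for the arrangement
`F`. -/
noncomputable def entx (T : Fin (d + 1) → Fin m) (k : ∀ l, Fin (F.r (T l))) (l : Fin (d + 1)) :
    (PRing F G lam)ˣ := fx F G lam (T l) (k l).succ / fx F G lam (T l) 0

/-- The entries `(y^α - ζ_{e,k_l+1}) / (y^α - ζ_{e,0})`, `e = T_l`, `α = α_e`, for the arrangement
`G`. -/
noncomputable def enty (T : Fin (q + 1) → Fin m') (k : ∀ l, Fin (G.r (T l))) (l : Fin (q + 1)) :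
    (PRing F G lam)ˣ := fy F G lam (T l) (k l).succ / fy F G lam (T l) 0

end ring

end Pool.Agent.K7.H1.PP
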