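import Pool.Agent.K7.H1.TU.ET2
set_option autoImplicit false

/-!
Small tori in the product of a vertex of a toric arrangement and an end of a torus.
-/

namespace Pool.Agent.K7.H1.PP

open MvPolynomial

open Filter Topology

open Pool.Agent.TH826.MK (Torus Good pairing symb)

open Pool.Agent.TH577.UA (mmon contDiff_mmon mmon_zero_ne mmon_zero_eq mrow yrow det_yrow stp)

open Pool.Agent.K7.H1.AH (mmon_eq crd eventually_lt_norm)

open Pool.Agent.K7.H1.TO Pool.Agent.K7.H1.TO.Arr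

open Pool.Agent.K7.H1.TU (engine2 prod_single xe xe_ne contDiff_xe mmon_single)

theorem sum_single' {ι κ : Type*} [Fintype ι] [DecidableEq (ι ⊕ κ)] (M : ι → ℝ) (p q : ι) :
    ∑ e, (((Pi.single (Sum.inl p) 1 : ι ⊕ κ → ℕ) (Sum.inl e) : ℝ) -
      (Pi.single (Sum.inl q) 1 : ι ⊕ κ → ℕ) (Sum.inl e)) * M e = M p - M q := by
  classical
  have h : ∀ p : ι, ∑ e, ((Pi.single (Sum.inl p) 1 : ι ⊕ κ → ℕ) (Sum.inl e) : ℝ) * M e = M p := by
    intro p
    rw [Finset.sum_eq_single p]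
    · rw [Pi.single_eq_same, Nat.cast_one, one_mul]
    · intro b _ hb
      rw [Pi.single_eq_of_ne (fun h => hb (Sum.inl_injective h)), Nat.cast_zero, zero_mul]
    · exact fun h => absurd (Finset.mem_univ _) h
  simp only [sub_mul, Finset.sum_sub_distrib, h]

section proj

variable {d q D : ℕ} (e : Fin (d + 1) ⊕ Fin (q + 1) ≃ Fin (D + 1))

/-- the first coordinates -/
def pr1 (u : (Fin D → ℂ) × ℂ) : (Fin d → ℂ) × ℂ :=
  (fun k => crd u (e (Sum.inl k.succ)), crd u (e (Sum.inl 0)))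

/-- the second coordinates -/
def pr2 (u : (Fin D → ℂ) × ℂ) : (Fin q → ℂ) × ℂ :=
  (fun k => crd u (e (Sum.inr k.succ)), crd u (e (Sum.inr 0)))

theorem crd_pr1 (u : (Fin D → ℂ) × ℂ) (i : Fin (d + 1)) :
    crd (pr1 e u) i = crd u (e (Sum.inl i)) := by
  refine Fin.cases ?_ (fun k => ?_) i
  · rfl
  · rfl

theorem crd_pr2 (u : (Fin D → ℂ) × ℂ) (i : Fin (q + 1)) :
    crd (pr2 e u) i = crd u (e (Sum.inr i)) := by
  refine Fin.cases ?_ (fun k => ?_) i
  · rfl
  · rfl

theorem contDiff_crd {n : ℕ} (i : Fin (n + 1)) :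
    ContDiff ℂ 2 fun u : (Fin n → ℂ) × ℂ => crd u i := by
  refine Fin.cases ?_ (fun k => ?_) i
  · exact contDiff_snd
  · exact contDiff_pi.1 contDiff_fst k

theorem contDiff_pr1 : ContDiff ℂ 2 (pr1 e) :=
  (contDiff_pi.2 fun _ => contDiff_crd _).prodMk (contDiff_crd _)

theorem contDiff_pr2 : ContDiff ℂ 2 (pr2 e) :=
  (contDiff_pi.2 fun _ => contDiff_crd _).prodMk (contDiff_crd _)

theorem crd_zero {n : ℕ} (i : Fin (n + 1)) : crd (0 : (Fin n → ℂ) × ℂ) i = 0 := by
  refine Fin.cases ?_ (fun k => ?_) i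
  · rfl
  · rfl

theorem pr1_zero : pr1 e 0 = 0 := by
  unfold pr1
  simp only [crd_zero]
  rfl

theorem pr2_zero : pr2 e 0 = 0 := by
  unfold pr2
  simp only [crd_zero]
  rfl

/-- the exponents in all variables of a monomial in the first coordinates -/
def ex1 (μ : Fin (d + 1) → ℕ) (i : Fin (D + 1)) : ℕ := Sum.elim μ (fun _ => 0) (e.symm i)

/-- the exponents in all variables of a monomial in the second coordinates -/
def ex2 (μ : Fin (q + 1) → ℕ) (i : Fin (D + 1)) : ℕ := Sum.elim (fun _ => 0) μ (e.symm i)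

theorem mmon_pr1 (μ : Fin (d + 1) → ℕ) (u : (Fin D → ℂ) × ℂ) :
    mmon μ (pr1 e u) = mmon (ex1 e μ) u := by
  rw [mmon_eq, mmon_eq, ← e.prod_comp, Fintype.prod_sum_type]
  unfold ex1
  simp only [Equiv.symm_apply_apply, Sum.elim_inl, Sum.elim_inr, pow_zero,
    Finset.prod_const_one, mul_one, crd_pr1]

theorem mmon_pr2 (μ : Fin (q + 1) → ℕ) (u : (Fin D → ℂ) × ℂ) :
    mmon μ (pr2 e u) = mmon (ex2 e μ) u := by
  rw [mmon_eq, mmon_eq, ← e.prod_comp, Fintype.prod_sum_type]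
  unfold ex2
  simp only [Equiv.symm_apply_apply, Sum.elim_inl, Sum.elim_inr, pow_zero,
    Finset.prod_const_one, one_mul, crd_pr2]

/-- The determinant of the orders. -/
theorem det_prod (r : ℕ) (N : Fin D → ℕ) (R : Fin (D + 1) → Fin (D + 1) → ℝ)
    (B1 : Fin (d + 1) → Fin (d + 1) → ℝ) (B2 : Fin (q + 1) → Fin (q + 1) → ℝ)
    (h1 : ∀ l i, R (e (Sum.inl l)) i = ∑ s, B1 l s * yrow r N (e (Sum.inl s)) i)
    (h2 : ∀ l i, R (e (Sum.inr l)) i = ∑ s, B2 l s * yrow r N (e (Sum.inr s)) i) :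
    (Matrix.of R).det = (Matrix.of B1).det * (Matrix.of B2).det *
      (Matrix.of (yrow r N)).det := by
  have h : Matrix.of R = (Matrix.reindex e e (Matrix.fromBlocks (Matrix.of B1) 0 0
      (Matrix.of B2))) * Matrix.of (yrow r N) := by
    ext k i
    obtain ⟨s, rfl⟩ := e.surjective k
    rw [Matrix.mul_apply, ← e.sum_comp, Fintype.sum_sum_type]
    simp only [Matrix.of_apply, Matrix.reindex_apply, Matrix.submatrix_apply,
      Equiv.symm_apply_apply]
    cases s with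
    | inl l =>
      rw [h1]
      simp only [Matrix.fromBlocks_apply₁₁, Matrix.fromBlocks_apply₁₂, Matrix.zero_apply, zero_mul,
        Finset.sum_const_zero, add_zero, Matrix.of_apply]
    | inr l =>
      rw [h2]
      simp only [Matrix.fromBlocks_apply₂₁, Matrix.fromBlocks_apply₂₂, Matrix.zero_apply, zero_mul,
        Finset.sum_const_zero, zero_add, Matrix.of_apply]
  rw [h, Matrix.det_mul, Matrix.det_reindex_self, Matrix.det_fromBlocks_zero₂₁]

theorem mrow_ex1 (r : ℕ) (N : Fin D → ℕ) (μ : Fin (d + 1) → ℕ) (i : Fin (D + 1)) :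
    mrow r N (ex1 e μ) i = ∑ s, (μ s : ℝ) * yrow r N (e (Sum.inl s)) i := by
  unfold mrow
  rw [← e.sum_comp, Fintype.sum_sum_type]
  unfold ex1
  simp only [Equiv.symm_apply_apply, Sum.elim_inl, Sum.elim_inr, Nat.cast_zero, zero_mul,
    Finset.sum_const_zero, add_zero]

theorem mrow_ex2 (r : ℕ) (N : Fin D → ℕ) (μ : Fin (q + 1) → ℕ) (i : Fin (D + 1)) :
    mrow r N (ex2 e μ) i = ∑ s, (μ s : ℝ) * yrow r N (e (Sum.inr s)) i := by
  unfold mrow
  rw [← e.sum_comp, Fintype.sum_sum_type]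
  unfold ex2
  simp only [Equiv.symm_apply_apply, Sum.elim_inl, Sum.elim_inr, Nat.cast_zero, zero_mul,
    Finset.sum_const_zero, zero_add]

end proj

section main

variable {K : Type*} [Field K] {d m : ℕ} {F : Arr K d m}

/-- the values of a factor -/
noncomputable def vf (σ : K →+* ℂ) (F : Arr K d m) (x : Fin (d + 1) → ℂ) (e : Fin m)
    (i : Fin (F.r e + 1)) : ℂ := ∏ j, x j ^ F.al e j - σ (F.z e i)

theorem exists_map (σ : K →+* ℂ) {T : Fin (d + 1) → Fin m} (hT : (F.mat T).det ≠ 0)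
    {P : Fin (d + 1) → ℂ} (hP : ∀ j, P j ≠ 0) (hα : ∀ e, F.al e ≠ 0)
    (hz : ∀ e i, F.z e i ≠ 0) (hg : F.g ≠ 0) {k : ∀ l, Fin (F.r (T l))}
    (hk : ∀ l, ∏ j, P j ^ F.al (T l) j = σ (F.z (T l) (k l).succ))
    {q D : ℕ} (e : Fin (d + 1) ⊕ Fin (q + 1) ≃ Fin (D + 1))
    {A' : Fin (q + 1) → Fin (q + 1) → ℤ} (hA' : (Matrix.of A').det ≠ 0) (nn : Fin (q + 1) → ℕ)
    {W : (Fin q → ℂ) × ℂ → ℂ} (hWc : ContDiff ℂ 2 W) (hW0 : W 0 ≠ 0) {κ : Type*} [Fintype κ]
    {V : κ → (Fin q → ℂ) × ℂ → ℂ} (hVc : ∀ c, ContDiff ℂ 2 (V c)) (hV0 : ∀ c, V c 0 ≠ 0)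
    {I J : Type*} [Fintype I] [Fintype J] (Tp : I → Fin (d + 1) → Fin m)
    (kp : ∀ i l, Fin (F.r (Tp i l))) (pf qf : J → Fin (q + 1) → κ) :
    ∃ D0 : ℝ, D0 ≠ 0 ∧ ∀ ε : ℝ, 0 < ε →
    ∃ η0 : ℝ, 0 < η0 ∧ ∀ η : ℂ, η ≠ 0 → ‖η‖ < η0 → Real.log ‖η‖ < 0 ∧
      ∃ (X : (Fin D → ℝ) → Fin (d + 1) → ℂ) (U : (Fin D → ℝ) → (Fin q → ℂ) × ℂ),
        ContDiff ℝ 2 X ∧ ContDiff ℝ 2 U ∧ (∀ θ i, X (θ + Pi.single i 1) = X θ) ∧
        (∀ θ i, U (θ + Pi.single i 1) = U θ) ∧ (∀ θ j, X θ j ≠ 0) ∧ (∀ θ j, crd (U θ) j ≠ 0) ∧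
        (∀ θ, eval₂ σ (vals (X θ)) (F.Phi 1) * ((∏ s, crd (U θ) s ^ (nn s + 1)) *
          (W (U θ))⁻¹) = η) ∧ (∀ θ c, V c (U θ) ≠ 0) ∧
        (∀ θ, ∃ j, eval₂ σ (vals (X θ)) (dlog j (F.Phi 1)) ≠ 0) ∧
        (∀ i, ∀ z : Fin (D + 1) → (Fin D → ℝ) → ℂ, (∀ l, Good (z l)) →
          (∀ l θ, z (e (Sum.inl l)) θ * vf σ F (X θ) (Tp i l) 0 =
            vf σ F (X θ) (Tp i l) (kp i l).succ) →
          (∀ l θ, z (e (Sum.inr l)) θ = xe A' (U θ) l) →
          |pairing z / Real.log ‖η‖ - F.lead σ T P (Tp i) (kp i) * D0| ≤ ε) ∧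
        ∀ c, ∀ z : Fin (D + 1) → (Fin D → ℝ) → ℂ, (∀ l, Good (z l)) →
          (∀ l θ, z (e (Sum.inl l)) θ = X θ l) →
          (∀ l θ, z (e (Sum.inr l)) θ * V (qf c l) (U θ) = V (pf c l) (U θ)) →
          |pairing z / Real.log ‖η‖| ≤ ε := by
  classical
  obtain ⟨A, β, H, hA, hAdet, hHc, hH0, hHe⟩ := exists_gchart (F := F) (T := T) σ hT hP hg
  choose h hcd hne hfac using fun (e : Fin m) (i : Fin (F.r e + 1)) =>
    exists_fac (F := F) (T := T) (P := P) σ hT (hα e) (hz e i) hA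
  let ι1 : Type := Option ((e : (e : Fin m) × Fin (F.r e + 1)) × Fin (F.w e.1 e.2 + 1))
  let ι : Type := ι1 ⊕ (((s : Fin (q + 1)) × Fin (nn s + 1)) ⊕ Unit)
  set μ1 : ι1 → Fin (d + 1) → ℕ := fun e => Option.elim e β
    fun e => fun j => ∑ l, muT F T σ P e.1.1 e.1.2 l * A l j with hμ1
  set μ : ι → Fin (D + 1) → ℕ := Sum.elim (fun c => ex1 e (μ1 c))
    (Sum.elim (fun p => ex2 e (Pi.single p.1 1)) fun _ _ => 0) with hμ
  set N : Fin D → ℕ := fun k => ∑ c, μ c k.succ with hN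
  set r : ℕ := ∑ c, μ c 0 with hr
  set hh1 : ι1 → (Fin d → ℂ) × ℂ → ℂ := fun e y =>
    Option.elim e (H y) fun e => h e.1.1 e.1.2 y with hhh1
  have hhc1 : ∀ e, ContDiff ℂ 2 (hh1 e) := fun e => by
    cases e with
    | none => exact hHc
    | some e => exact hcd e.1.1 e.1.2
  have hh10 : ∀ e, hh1 e 0 ≠ 0 := fun e => by
    cases e with
    | none => exact hH0
    | some e => exact hne e.1.1 e.1.2
  set HH1 : ι1 → (Fin d → ℂ) × ℂ → ℂ := fun e y => Option.elim e
    (eval₂ σ (xs F T P (sv A y)) F.g * ∏ j, xs F T P (sv A y) j ^ (-F.ga) j)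
    fun e => ∏ j, xs F T P (sv A y) j ^ F.al e.1.1 j - σ (F.z e.1.1 e.1.2) with hHH1
  have hHHe1 : ∀ e y, HH1 e y = mmon (μ1 e) y * hh1 e y := fun e y => by
    cases e with
    | none => exact hHe y
    | some e => exact hfac e.1.1 e.1.2 y
  set HH : ι → (Fin D → ℂ) × ℂ → ℂ := Sum.elim (fun c u => HH1 c (pr1 e u))
    (Sum.elim (fun p u => crd (pr2 e u) p.1) fun _ u => (W (pr2 e u))⁻¹) with hHH
  set hh : ι → (Fin D → ℂ) × ℂ → ℂ := Sum.elim (fun c u => hh1 c (pr1 e u))
    (Sum.elim (fun _ _ => 1) fun _ u => (W (pr2 e u))⁻¹) with hhh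
  have hHHe : ∀ c u, HH c u = mmon (μ c) u * hh c u := by
    rintro (c | p | p) u
    · show HH1 c (pr1 e u) = mmon (ex1 e (μ1 c)) u * hh1 c (pr1 e u)
      rw [hHHe1, mmon_pr1]
    · show crd (pr2 e u) p.1 = mmon (ex2 e (Pi.single p.1 1)) u * 1
      rw [← mmon_pr2, mmon_single, mul_one]
    · show (W (pr2 e u))⁻¹ = mmon (fun _ => 0) u * (W (pr2 e u))⁻¹
      rw [mmon_zero_eq (fun _ => rfl), one_mul]
  have hr0 : 0 < r := by
    -- the variable with the index 0
    obtain ⟨s, hs⟩ := e.surjective 0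
    cases s with
    | inl s =>
      have h1 : μ (Sum.inl (some ⟨⟨T 0, (k 0).succ⟩, 0⟩)) 0 ≤ r :=
        Finset.single_le_sum (f := fun e => μ e 0) (fun _ _ => Nat.zero_le _) (Finset.mem_univ _)
      refine lt_of_lt_of_le ?_ h1
      show 0 < ex1 e (μ1 (some ⟨⟨T 0, (k 0).succ⟩, 0⟩)) 0
      unfold ex1
      rw [← hs, Equiv.symm_apply_apply]
      show 0 < ∑ l, muT F T σ P (T 0) (k 0).succ l * A l s
      have h2 : muT F T σ P (T 0) (k 0).succ 0 = 1 := by
        unfold muT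
        rw [if_pos (hk 0), top_T hT]
        unfold stp
        rw [if_pos le_rfl]
      have h3 : muT F T σ P (T 0) (k 0).succ 0 * A 0 s ≤
          ∑ l, muT F T σ P (T 0) (k 0).succ l * A l s :=
        Finset.single_le_sum (f := fun l => muT F T σ P (T 0) (k 0).succ l * A l s)
          (fun _ _ => Nat.zero_le _) (Finset.mem_univ _)
      rw [h2, one_mul] at h3
      have h4 := hA 0 s
      omega
    | inr s =>
      have h1 : μ (Sum.inr (Sum.inl ⟨s, 0⟩)) 0 ≤ r :=
        Finset.single_le_sum (f := fun e => μ e 0) (fun _ _ => Nat.zero_le _) (Finset.mem_univ _)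
      refine lt_of_lt_of_le ?_ h1
      show 0 < ex2 e (Pi.single s 1) 0
      unfold ex2
      rw [← hs, Equiv.symm_apply_apply]
      show 0 < (Pi.single s 1 : Fin (q + 1) → ℕ) s
      rw [Pi.single_eq_same]
      exact Nat.one_pos
  set B2 : Fin (q + 1) → Fin (q + 1) → ℝ := fun l s => -(A' s l : ℝ) with hB2
  have hB2det : (Matrix.of B2).det ≠ 0 := by
    have h0 : Matrix.of B2 = (-((Matrix.of A').map (Int.castRingHom ℝ))).transpose := by
      ext l s
      rfl
    rw [h0, Matrix.det_transpose, Matrix.det_neg]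
    refine mul_ne_zero (pow_ne_zero _ (by norm_num)) ?_
    rw [← RingHom.mapMatrix_apply, ← RingHom.map_det]
    show ((Matrix.of A').det : ℝ) ≠ 0
    exact_mod_cast hA'
  refine ⟨(2 * Real.pi) ^ D * ((Matrix.of fun i j => (A i j : ℝ)).det * (Matrix.of B2).det *
    (Matrix.of (yrow r N)).det), mul_ne_zero
    (pow_ne_zero _ (by have := Real.pi_pos; positivity))
    (mul_ne_zero (mul_ne_zero hAdet hB2det) (det_yrow hr0 N)), fun ε hε => ?_⟩
  set VV : Fin (d + 1) ⊕ κ → (Fin D → ℂ) × ℂ → ℂ := Sum.elim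
    (fun j u => xs F T P (sv A (pr1 e u)) j) (fun c u => V c (pr2 e u)) with hVV
  have hx0 : ∀ y j, xs F T P (sv A y) j ≠ 0 := fun y j => xs_ne hP _ j
  let pi : I → Fin (d + 1) → ι1 := fun i l => some ⟨⟨Tp i l, (kp i l).succ⟩, 0⟩
  let qi : I → Fin (d + 1) → ι1 := fun i l => some ⟨⟨Tp i l, 0⟩, 0⟩
  set pw : (Fin (q + 1) → ℕ) → ι ⊕ (Fin (d + 1) ⊕ κ) → ℕ := fun c => Sum.elim
    (Sum.elim (fun _ => 0) (Sum.elim (fun p => if p.2 = 0 then c p.1 else 0) fun _ => 0))
    fun _ => 0 with hpw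
  set a : Option (I ⊕ J) → Fin (D + 1) → ι ⊕ (Fin (d + 1) ⊕ κ) → ℕ := fun c l =>
    Option.elim c 0 (Sum.elim
      (fun i => Sum.elim (fun l => Pi.single (Sum.inl (Sum.inl (pi i l))) 1)
        (fun l => pw fun s => (-(A' s l)).toNat) (e.symm l))
      (fun c => Sum.elim (fun l => Pi.single (Sum.inr (Sum.inl l)) 1)
        (fun l => Pi.single (Sum.inr (Sum.inr (pf c l))) 1) (e.symm l))) with ha
  set b : Option (I ⊕ J) → Fin (D + 1) → ι ⊕ (Fin (d + 1) ⊕ κ) → ℕ := fun c l =>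
    Option.elim c 0 (Sum.elim
      (fun i => Sum.elim (fun l => Pi.single (Sum.inl (Sum.inl (qi i l))) 1)
        (fun l => pw fun s => (A' s l).toNat) (e.symm l))
      (fun c => Sum.elim (fun _ => 0)
        (fun l => Pi.single (Sum.inr (Sum.inr (qf c l))) 1) (e.symm l))) with hb
  have hpwprod : ∀ (c : Fin (q + 1) → ℕ) u,
      ∏ e, Sum.elim HH VV e u ^ pw c e = ∏ s, crd (pr2 e u) s ^ c s := by
    intro c u
    rw [Fintype.prod_sum_type, Fintype.prod_sum_type, Fintype.prod_sum_type, Fintype.prod_sigma]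
    simp only [hpw, Sum.elim_inl, Sum.elim_inr, pow_zero, Finset.prod_const_one, mul_one, one_mul]
    refine Finset.prod_congr rfl fun s _ => ?_
    rw [Finset.prod_eq_single 0]
    · rw [if_pos rfl]
      rfl
    · intro i _ hi
      rw [if_neg hi, pow_zero]
    · exact fun h => absurd (Finset.mem_univ _) h
  have hpwsum : ∀ (c : Fin (q + 1) → ℕ) j,
      ∑ e : ι, (pw c (Sum.inl e) : ℝ) * mrow r N (μ e) j =
        ∑ s, (c s : ℝ) * yrow r N (e (Sum.inr s)) j := by
    intro c j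
    rw [Fintype.sum_sum_type, Fintype.sum_sum_type, Fintype.sum_sigma]
    simp only [hpw, Sum.elim_inl, Sum.elim_inr, Nat.cast_zero, zero_mul, Finset.sum_const_zero,
      add_zero, zero_add]
    refine Finset.sum_congr rfl fun s _ => ?_
    rw [Finset.sum_eq_single 0]
    · rw [if_pos rfl]
      congr 1
      show mrow r N (ex2 e (Pi.single s 1)) j = _
      rw [mrow_ex2, Finset.sum_eq_single s]
      · rw [Pi.single_eq_same, Nat.cast_one, one_mul]
      · intro t _ ht
        rw [Pi.single_eq_of_ne ht, Nat.cast_zero, zero_mul]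
      · exact fun h => absurd (Finset.mem_univ _) h
    · intro i _ hi
      rw [if_neg hi, Nat.cast_zero, zero_mul]
    · exact fun h => absurd (Finset.mem_univ _) h
  set Hu : (Fin d → ℂ) × ℂ → ℂ := fun y => ∏ e, hh1 e y with hHu
  have hHuc : ContDiff ℂ 2 Hu := contDiff_prod fun e _ => hhc1 e
  have hHu0 : Hu 0 ≠ 0 := Finset.prod_ne_zero_iff.2 fun e _ => hh10 e
  have hPr : ∀ᶠ u in 𝓝 (0 : (Fin D → ℂ) × ℂ),
      ‖fderiv ℂ Hu (pr1 e u) (pr1 e u)‖ < ‖Hu (pr1 e u)‖ := by
    have h1 : Tendsto (pr1 e) (𝓝 0) (𝓝 0) := by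
      have h2 := (contDiff_pr1 e).continuous.tendsto 0
      rw [pr1_zero] at h2
      exact h2
    exact h1.eventually (eventually_lt_norm hHuc hHu0)
  obtain ⟨η0, hη0, hX⟩ := engine2 (r := r) (N := N) (H := HH) (h := hh) (V := VV)
    (Filter.Eventually.of_forall fun u c => hHHe c u)
    (by
      rintro (c | p | p)
      · exact ((hhc1 c).comp (contDiff_pr1 e)).contDiffAt
      · exact contDiffAt_const
      · refine ContDiffAt.inv (hWc.comp (contDiff_pr2 e)).contDiffAt ?_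
        show W (pr2 e 0) ≠ 0
        rw [pr2_zero]
        exact hW0)
    (by
      rintro (c | p | p)
      · show hh1 c (pr1 e 0) ≠ 0
        rw [pr1_zero]
        exact hh10 c
      · exact one_ne_zero
      · show (W (pr2 e 0))⁻¹ ≠ 0
        rw [pr2_zero]
        exact inv_ne_zero hW0) rfl hr0
    (fun k => rfl)
    (by
      rintro (j | c)
      · exact ((contDiff_pi.1 (contDiff_xs F T P A) j).comp (contDiff_pr1 e)).contDiffAt
      · exact ((hVc c).comp (contDiff_pr2 e)).contDiffAt)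
    (by
      rintro (j | c)
      · exact hx0 _ j
      · show V c (pr2 e 0) ≠ 0
        rw [pr2_zero]
        exact hV0 c) hPr a b hε
  refine ⟨η0, hη0, fun η hη hlt => ?_⟩
  obtain ⟨hlog, U, hUc, hUp, hUe, hUP, hUg, hUest⟩ := hX η hη hlt
  have hcrd : ∀ θ s, crd (pr2 e (U θ)) s ≠ 0 := fun θ s =>
    (hUg (Sum.inl (Sum.inr (Sum.inl ⟨s, 0⟩)))).ne_zero θ
  have hprod : ∀ y, eval₂ σ (vals (xs F T P (sv A y))) (F.Phi 1) = ∏ e, HH1 e y := fun y => by
    rw [eval_Phi (hx0 y), map_one, one_mul, Fintype.prod_option]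
    congr 1
    rw [Fintype.prod_sigma]
    simp only [hHH1, Option.elim, Finset.prod_const, Finset.card_univ, Fintype.card_fin]
    rw [Fintype.prod_sigma]
  refine ⟨hlog, fun θ => xs F T P (sv A (pr1 e (U θ))), fun θ => pr2 e (U θ),
    (((contDiff_xs F T P A).comp (contDiff_pr1 e)).restrict_scalars ℝ).comp hUc,
    ((contDiff_pr2 e).restrict_scalars ℝ).comp hUc, fun θ i => by simp only [hUp],
    fun θ i => by simp only [hUp], fun θ => hx0 _, hcrd, fun θ => ?_, fun θ c =>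
      (hUg (Sum.inr (Sum.inr c))).ne_zero θ, fun θ => ?_, fun i z hz1 hz2 hz3 => ?_,
    fun c z hz1 hz2 hz3 => ?_⟩
  · have h1 := hUe θ
    rw [Fintype.prod_sum_type, Fintype.prod_sum_type, Fintype.prod_sigma] at h1
    rw [hprod, ← h1]
    congr 2
    · refine Finset.prod_congr rfl fun s _ => ?_
      show _ = ∏ i : Fin (nn s + 1), crd (pr2 e (U θ)) s
      rw [Finset.prod_const, Finset.card_univ, Fintype.card_fin]
    · rw [Finset.univ_unique, Finset.prod_singleton]
      rfl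
  · refine grad_ne' (ν := fun j => ∑ e, μ1 e j) (Hu := Hu)
      (xc := fun y => xs F T P (sv A y)) (contDiff_xs F T P A) hx0 (fun y => ?_) hHuc ?_
      (hUP θ) ?_
    · rw [hprod]
      simp only [hHHe1]
      rw [Finset.prod_mul_distrib]
      have h5 : ∏ e, mmon (μ1 e) y = mmon (fun j => ∑ e, μ1 e j) y := by
        simp only [mmon_eq, ← Finset.prod_pow_eq_pow_sum]
        exact Finset.prod_comm
      rw [h5]
    · have h1 : μ1 (some ⟨⟨T 0, (k 0).succ⟩, 0⟩) 0 ≤ ∑ e, μ1 e 0 :=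
        Finset.single_le_sum (f := fun e => μ1 e 0) (fun _ _ => Nat.zero_le _) (Finset.mem_univ _)
      have h2 : ∑ e, μ1 e 0 ≤ ∑ j, ∑ e, μ1 e j :=
        Finset.single_le_sum (f := fun j => ∑ e, μ1 e j) (fun _ _ => Nat.zero_le _)
          (Finset.mem_univ _)
      refine lt_of_lt_of_le ?_ (h1.trans h2)
      show 0 < ∑ l, muT F T σ P (T 0) (k 0).succ l * A l 0
      have h2 : muT F T σ P (T 0) (k 0).succ 0 = 1 := by
        unfold muT
        rw [if_pos (hk 0), top_T hT]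
        unfold stp
        rw [if_pos le_rfl]
      have h3 : muT F T σ P (T 0) (k 0).succ 0 * A 0 0 ≤
          ∑ l, muT F T σ P (T 0) (k 0).succ l * A l 0 :=
        Finset.single_le_sum (f := fun l => muT F T σ P (T 0) (k 0).succ l * A l 0)
          (fun _ _ => Nat.zero_le _) (Finset.mem_univ _)
      rw [h2, one_mul] at h3
      have h4 := hA 0 0
      omega
    · have h1 := hUe θ
      rw [Fintype.prod_sum_type] at h1
      rw [hprod]
      intro h0
      have h2 : ∏ c, HH (Sum.inl c) (U θ) = 0 := h0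
      rw [h2, zero_mul] at h1
      exact hη h1.symm
  · -- the first symbols
    have hdet : (Matrix.of fun l j => ∑ c : ι,
          ((a (some (Sum.inl i)) l (Sum.inl c) : ℝ) - b (some (Sum.inl i)) l (Sum.inl c)) *
            mrow r N (μ c) j).det = (Matrix.of fun l s : Fin (d + 1) => ∑ l', ((muT F T σ P (Tp i l)
              (kp i l).succ l' : ℝ) - muT F T σ P (Tp i l) 0 l') * (A l' s : ℝ)).det *
            (Matrix.of B2).det * (Matrix.of (yrow r N)).det := by
      refine det_prod e r N _ _ _ (fun l j => ?_) (fun l j => ?_)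
      · simp only [ha, hb, Option.elim, Sum.elim_inl, Equiv.symm_apply_apply]
        rw [sum_single' (fun c : ι => mrow r N (μ c) j) (Sum.inl (pi i l)) (Sum.inl (qi i l))]
        show mrow r N (ex1 e (μ1 (pi i l))) j - mrow r N (ex1 e (μ1 (qi i l))) j = _
        rw [mrow_ex1, mrow_ex1, ← Finset.sum_sub_distrib]
        refine Finset.sum_congr rfl fun s _ => ?_
        rw [← sub_mul]
        congr 1
        show ((∑ l', muT F T σ P (Tp i l) (kp i l).succ l' * A l' s : ℕ) : ℝ) -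
          ((∑ l', muT F T σ P (Tp i l) 0 l' * A l' s : ℕ) : ℝ) = _
        simp only [sub_mul, Finset.sum_sub_distrib]
        push_cast
        rfl
      · simp only [ha, hb, Option.elim, Sum.elim_inl, Sum.elim_inr, Equiv.symm_apply_apply]
        simp only [sub_mul, Finset.sum_sub_distrib]
        rw [hpwsum (fun s => (-(A' s l)).toNat) j, hpwsum (fun s => (A' s l).toNat) j,
          ← Finset.sum_sub_distrib]
        refine Finset.sum_congr rfl fun s _ => ?_
        rw [← sub_mul]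
        congr 1
        have h5 : (((-(A' s l)).toNat : ℤ) : ℝ) - (((A' s l).toNat : ℤ) : ℝ) =
            ((-(A' s l) : ℤ) : ℝ) := by
          rw [← Int.cast_sub]
          congr 1
          omega
        rw [Int.cast_natCast, Int.cast_natCast] at h5
        rw [h5, hB2]
        push_cast
        rfl
    have hmul : (Matrix.of fun l s : Fin (d + 1) => ∑ l', ((muT F T σ P (Tp i l)
        (kp i l).succ l' : ℝ) - muT F T σ P (Tp i l) 0 l') * (A l' s : ℝ)) =
        (Matrix.of fun l s => (muT F T σ P (Tp i l) (kp i l).succ s : ℝ) -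
          muT F T σ P (Tp i l) 0 s) * Matrix.of fun i j => (A i j : ℝ) := by
      ext l s
      rw [Matrix.mul_apply]
      rfl
    have hfin : F.lead σ T P (Tp i) (kp i) * ((2 * Real.pi) ^ D *
        ((Matrix.of fun i j => (A i j : ℝ)).det * (Matrix.of B2).det *
          (Matrix.of (yrow r N)).det)) =
        (2 * Real.pi) ^ D * (Matrix.of fun l j => ∑ c : ι,
          ((a (some (Sum.inl i)) l (Sum.inl c) : ℝ) - b (some (Sum.inl i)) l (Sum.inl c)) *
            mrow r N (μ c) j).det := by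
      rw [hdet, hmul, Matrix.det_mul]
      unfold lead
      ring
    rw [hfin]
    refine hUest (some (Sum.inl i)) z hz1 fun l θ => ?_
    obtain ⟨s, rfl⟩ := e.surjective l
    cases s with
    | inl l =>
      simp only [ha, hb, Option.elim, Sum.elim_inl, Equiv.symm_apply_apply]
      rw [prod_single, prod_single]
      exact hz2 l θ
    | inr l =>
      simp only [ha, hb, Option.elim, Sum.elim_inl, Sum.elim_inr, Equiv.symm_apply_apply]
      rw [hpwprod (fun s => (A' s l).toNat) (U θ), hpwprod (fun s => (-(A' s l)).toNat) (U θ),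
        hz3 l θ]
      unfold xe
      rw [← Finset.prod_mul_distrib]
      refine Finset.prod_congr rfl fun s _ => ?_
      rw [← zpow_natCast, ← zpow_natCast, ← zpow_add₀ (hcrd θ s)]
      congr 1
      omega
  · -- the second symbols
    have h2 : (Matrix.of fun l j => ∑ c' : ι,
        ((a (some (Sum.inr c)) l (Sum.inl c') : ℝ) - b (some (Sum.inr c)) l (Sum.inl c')) *
        mrow r N (μ c') j) = 0 := by
      ext l j
      rw [Matrix.of_apply]
      refine Finset.sum_eq_zero fun c' _ => ?_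
      obtain ⟨s, rfl⟩ := e.surjective l
      cases s with
      | inl l =>
        simp only [ha, hb, Option.elim, Sum.elim_inl, Sum.elim_inr, Equiv.symm_apply_apply]
        rw [Pi.single_eq_of_ne (by simp)]
        simp
      | inr l =>
        simp only [ha, hb, Option.elim, Sum.elim_inr, Equiv.symm_apply_apply]
        rw [Pi.single_eq_of_ne (by simp), Pi.single_eq_of_ne (by simp)]
        simp
    have h1 := hUest (some (Sum.inr c)) z hz1 (fun l θ => by
      obtain ⟨s, rfl⟩ := e.surjective l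
      cases s with
      | inl l =>
        simp only [ha, hb, Option.elim, Sum.elim_inl, Sum.elim_inr, Equiv.symm_apply_apply,
          Pi.zero_apply, pow_zero, Finset.prod_const_one, mul_one]
        rw [prod_single]
        exact hz2 l θ
      | inr l =>
        simp only [ha, hb, Option.elim, Sum.elim_inr, Equiv.symm_apply_apply]
        rw [prod_single, prod_single]
        exact hz3 l θ)
    rw [h2, Matrix.det_zero, mul_zero, sub_zero] at h1
    exact h1

end main

end Pool.Agent.K7.H1.PP
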