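import Pool.Agent.K7.H1.PP.Eng
set_option autoImplicit false

/-!
Small tori for two arrangements: near a vertex of the first and near an end of the second.
-/

namespace Pool.Agent.K7.H1.PP

open MvPolynomial

open Pool.Agent.TH826.MK (Torus Good pairing symb)

open Pool.Agent.K7.H1.AH (crd)

open Pool.Agent.K7.H1.TO Pool.Agent.K7.H1.TO.Arr

open Pool.Agent.K7.H1.TU (Inner nz We Ve fac_xe eval_Phi_xe contDiff_Ve Ve_zero xe xe_ne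
  contDiff_zpow')

variable {K : Type*} [Field K] {d q m m' : ℕ} {F : Arr K d m} {G : Arr K q m'}

theorem contDiff_xe' {n D : ℕ} {A : Fin (n + 1) → Fin (n + 1) → ℤ}
    {U : (Fin D → ℝ) → (Fin n → ℂ) × ℂ} (hU : ContDiff ℝ 2 U) (h0 : ∀ θ i, crd (U θ) i ≠ 0) :
    ContDiff ℝ 2 fun θ => xe A (U θ) := by
  refine contDiff_pi.2 fun j => ?_
  unfold xe
  refine contDiff_prod fun i _ => contDiff_zpow' ?_ (fun θ => h0 θ i) _
  refine Fin.cases ?_ (fun k => ?_) i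
  · exact hU.snd
  · exact contDiff_pi.1 hU.fst k

theorem exists_maps (σ : K →+* ℂ) {T : Fin (d + 1) → Fin m} (hT : (F.mat T).det ≠ 0)
    {P : Fin (d + 1) → ℂ} (hP : ∀ j, P j ≠ 0) (hα : ∀ e, F.al e ≠ 0)
    (hz : ∀ e i, F.z e i ≠ 0) (hg : F.g ≠ 0) {k : ∀ l, Fin (F.r (T l))}
    (hk : ∀ l, ∏ j, P j ^ F.al (T l) j = σ (F.z (T l) (k l).succ))
    {D : ℕ} (e : Fin (d + 1) ⊕ Fin (q + 1) ≃ Fin (D + 1))
    {A : Fin (q + 1) → Fin (q + 1) → ℤ} (hAdet : (Matrix.of A).det ≠ 0)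
    (hA : ∀ e, (∀ k, 0 < A k ⬝ᵥ G.al e) ∨ ∀ k, A k ⬝ᵥ G.al e < 0)
    (hzG : ∀ e i, G.z e i ≠ 0) (hgG : G.g = 1) (hin : Inner G)
    {I J : Type*} [Fintype I] [Fintype J] (Tp : I → Fin (d + 1) → Fin m)
    (kp : ∀ i l, Fin (F.r (Tp i l))) (Sp : J → Fin (q + 1) → Fin m')
    (lp : ∀ i l, Fin (G.r (Sp i l))) :
    ∃ D0 : ℝ, D0 ≠ 0 ∧ ∀ ε : ℝ, 0 < ε →
    ∃ Λ : ℝ, 1 < Λ ∧ ∀ c : ℂ, Λ ≤ ‖c‖ → 0 < Real.log ‖c‖ ∧
      ∃ (X : (Fin D → ℝ) → Fin (d + 1) → ℂ) (Y : (Fin D → ℝ) → Fin (q + 1) → ℂ),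
        ContDiff ℝ 2 X ∧ ContDiff ℝ 2 Y ∧ (∀ θ i, X (θ + Pi.single i 1) = X θ) ∧
        (∀ θ i, Y (θ + Pi.single i 1) = Y θ) ∧ (∀ θ j, X θ j ≠ 0) ∧ (∀ θ j, Y θ j ≠ 0) ∧
        (∀ θ, c * eval₂ σ (vals (X θ)) (F.Phi 1) = eval₂ σ (vals (Y θ)) (G.Phi 1)) ∧
        (∀ θ, eval₂ σ (vals (Y θ)) (G.Phi 1) ≠ 0) ∧
        (∀ θ, ∃ j, eval₂ σ (vals (X θ)) (dlog j (F.Phi 1)) ≠ 0) ∧
        (∀ i, ∀ z : Fin (D + 1) → (Fin D → ℝ) → ℂ, (∀ l, Good (z l)) →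
          (∀ l θ, z (e (Sum.inl l)) θ * vf σ F (X θ) (Tp i l) 0 =
            vf σ F (X θ) (Tp i l) (kp i l).succ) →
          (∀ l θ, z (e (Sum.inr l)) θ = Y θ l) →
          |pairing z / (-Real.log ‖c‖) - F.lead σ T P (Tp i) (kp i) * D0| ≤ ε) ∧
        ∀ i, ∀ z : Fin (D + 1) → (Fin D → ℝ) → ℂ, (∀ l, Good (z l)) →
          (∀ l θ, z (e (Sum.inl l)) θ = X θ l) →
          (∀ l θ, z (e (Sum.inr l)) θ * vf σ G (Y θ) (Sp i l) 0 =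
            vf σ G (Y θ) (Sp i l) (lp i l).succ) →
          |pairing z / (-Real.log ‖c‖)| ≤ ε := by
  classical
  have hAne : ∀ k, A k ≠ 0 := by
    intro k h
    exact hAdet (Matrix.det_eq_zero_of_row_eq_zero k fun j => by
      rw [Matrix.of_apply, h]
      rfl)
  have hnz : ∀ k, 0 < nz G A k := by
    intro k
    have := hin (A k) (hAne k)
    unfold nz
    linarith
  obtain ⟨nn, hnn⟩ : ∃ nn : Fin (q + 1) → ℕ, ∀ k, nz G A k = (nn k : ℤ) + 1 :=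
    ⟨fun k => (nz G A k - 1).toNat, fun k => by
      have := hnz k
      rw [Int.toNat_of_nonneg (by omega)]
      ring⟩
  have hWc : ContDiff ℂ 2 (We σ G A) := contDiff_prod fun e _ => contDiff_prod fun i _ =>
    (contDiff_Ve σ A e i).pow _
  have hW0 : We σ G A 0 ≠ 0 := Finset.prod_ne_zero_iff.2 fun e _ =>
    Finset.prod_ne_zero_iff.2 fun i _ => pow_ne_zero _ (Ve_zero σ hA hzG e i)
  obtain ⟨D0, hD0, hE⟩ := exists_map (F := F) σ hT hP hα hz hg hk e hAdet nn hWc hW0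
    (κ := (e : Fin m') × Fin (G.r e + 1)) (V := fun c => Ve σ G A c.1 c.2)
    (fun c => contDiff_Ve σ A c.1 c.2) (fun c => Ve_zero σ hA hzG c.1 c.2) Tp kp
    (fun (i : J) l => ⟨Sp i l, (lp i l).succ⟩) (fun (i : J) l => ⟨Sp i l, 0⟩)
  refine ⟨D0, hD0, fun ε hε => ?_⟩
  obtain ⟨η0, hη0, hX⟩ := hE ε hε
  have hinvpos : 0 < 1 / η0 := by positivity
  refine ⟨1 / η0 + 2, by linarith, fun c hc => ?_⟩
  have hln : 0 < ‖c‖ := by linarith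
  have hc0 : c ≠ 0 := norm_pos_iff.1 hln
  have hη : ‖c⁻¹‖ < η0 := by
    rw [norm_inv, inv_lt_comm₀ hln hη0, ← one_div]
    linarith
  obtain ⟨hlog, X, U, hXc, hUc, hXp, hUp, hX0, hU0, hXU, hV, hgr, hS1, hS2⟩ :=
    hX c⁻¹ (inv_ne_zero hc0) hη
  have hlogeq : Real.log ‖c⁻¹‖ = -Real.log ‖c‖ := by rw [norm_inv, Real.log_inv]
  rw [hlogeq] at hlog hS1 hS2
  have heq : ∀ θ, c * eval₂ σ (vals (X θ)) (F.Phi 1) =
      eval₂ σ (vals (xe A (U θ))) (G.Phi 1) ∧ eval₂ σ (vals (xe A (U θ))) (G.Phi 1) ≠ 0 := by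
    intro θ
    have h1 := hXU θ
    have hW : We σ G A (U θ) ≠ 0 := Finset.prod_ne_zero_iff.2 fun e _ =>
      Finset.prod_ne_zero_iff.2 fun i _ => pow_ne_zero _ (hV θ ⟨e, i⟩)
    rw [eval_Phi_xe σ hgG hA (hU0 θ), map_one, one_mul]
    have h5 : (∏ s, crd (U θ) s ^ (nn s + 1)) * ∏ s, crd (U θ) s ^ (-nz G A s) = 1 := by
      rw [← Finset.prod_mul_distrib]
      refine Finset.prod_eq_one fun s _ => ?_
      rw [← zpow_natCast, ← zpow_add₀ (hU0 θ s), hnn]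
      push_cast
      rw [add_neg_cancel, zpow_zero]
    have h6 : (∏ s, crd (U θ) s ^ (-nz G A s)) ≠ 0 := right_ne_zero_of_mul (by
      rw [h5]
      exact one_ne_zero)
    refine ⟨?_, mul_ne_zero h6 hW⟩
    have h7 : eval₂ σ (vals (X θ)) (F.Phi 1) =
        c⁻¹ * ((∏ s, crd (U θ) s ^ (-nz G A s)) * We σ G A (U θ)) := by
      rw [← h1]
      calc eval₂ σ (vals (X θ)) (F.Phi 1) = eval₂ σ (vals (X θ)) (F.Phi 1) *
            (((∏ s, crd (U θ) s ^ (nn s + 1)) * ∏ s, crd (U θ) s ^ (-nz G A s)) *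
              ((We σ G A (U θ))⁻¹ * We σ G A (U θ))) := by
            rw [h5, inv_mul_cancel₀ hW, one_mul, mul_one]
        _ = _ := by ring
    rw [h7, ← mul_assoc, mul_inv_cancel₀ hc0, one_mul]
  refine ⟨by linarith, X, fun θ => xe A (U θ), hXc, contDiff_xe' hUc hU0, hXp,
    fun θ i => by simp only [hUp], hX0, fun θ => xe_ne (hU0 θ), fun θ => (heq θ).1,
    fun θ => (heq θ).2, hgr, fun i z h1 h2 h3 => hS1 i z h1 h2 h3, fun i z h1 h2 h3 =>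
      hS2 i z h1 h2 fun l θ => ?_⟩
  have h4 := h3 l θ
  have h5 : ∀ s, vf σ G (xe A (U θ)) (Sp i l) s =
      (∏ k, crd (U θ) k ^ (-(max 0 (A k ⬝ᵥ G.al (Sp i l))))) * Ve σ G A (Sp i l) s (U θ) :=
    fun s => fac_xe σ hA (hU0 θ) _ _
  have h6 : (∏ k, crd (U θ) k ^ (-(max 0 (A k ⬝ᵥ G.al (Sp i l))))) ≠ 0 :=
    Finset.prod_ne_zero_iff.2 fun k _ => zpow_ne_zero _ (hU0 θ k)
  rw [h5, h5] at h4
  refine mul_left_cancel₀ h6 ?_
  rw [← h4]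
  ring

end Pool.Agent.K7.H1.PP
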