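import Pool.Agent.K7.H1.PP.Pts
import Pool.Agent.K7.H1.PP.Maps
import Pool.Agent.K7.H1.TU.Main
set_option autoImplicit false

/-!
The main theorem on the two-sided families.
-/

namespace Pool.Agent.K7.H1.PP

open MvPolynomial

open Pool.Agent.TH826.MK (Torus Good pairing symb KQ)

open Pool.Agent.TH826.SX (det_ne_zero_near)

open Pool.Agent.TH577.UA (det_ne_zero_of_tri)

open Pool.Agent.K7.H1.TO Pool.Agent.K7.H1.TO.Arr

open Pool.Agent.K7.H1.TU (Inner exists_A)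

variable {K : Type*} [Field K] {d q m m' : ℕ} {F : Arr K d m} {G : Arr K q m'}

/-- The entries of the symbols: for `s = (T, k)` of the first arrangement the quotients of the factors
and the `y_j`, for `s = (T, k)` of the second arrangement the `x_j` and the quotients of the
factors. -/
noncomputable def pent (σ τ : K →+* ℂ) (F : Arr K d m) (G : Arr K q m') (lam : K)
    (o : Ix σ F ⊕ Ix τ G) : Fin (d + 1 + (q + 1)) → (PRing F G lam)ˣ :=
  Sum.elim (fun s => Fin.append (entx F G lam s.1.1 s.1.2) (uy F G lam))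
    (fun s => Fin.append (ux F G lam) (enty F G lam s.1.1 s.1.2)) o

/-- one block of tori -/
theorem exists_block (σ : K →+* ℂ) (hα : ∀ e, F.al e ≠ 0) (hz : ∀ e i, F.z e i ≠ 0)
    (hg : F.g ≠ 0) {D : ℕ} (e : Fin (d + 1) ⊕ Fin (q + 1) ≃ Fin (D + 1))
    (hαG : ∀ e, G.al e ≠ 0) (hzG : ∀ e i, G.z e i ≠ 0) (hgG : G.g = 1) (hin : Inner G)
    {J : Type*} [Fintype J] (Sp : J → Fin (q + 1) → Fin m') (lp : ∀ i l, Fin (G.r (Sp i l)))
    (P : Ix σ F → Fin (d + 1) → ℂ) (hP : ∀ s j, P s j ≠ 0)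
    (hk : ∀ s : Ix σ F, ∀ l, ∏ j, P s j ^ F.al (s.1.1 l) j = σ (F.z (s.1.1 l) (s.1.2 l).succ)) :
    ∃ D0 : Ix σ F → ℝ, (∀ s, D0 s ≠ 0) ∧ ∀ ε : ℝ, 0 < ε →
    ∃ Λ : ℝ, 1 < Λ ∧ ∀ c : ℂ, Λ ≤ ‖c‖ → 0 < Real.log ‖c‖ ∧ ∀ s : Ix σ F,
      ∃ (X : (Fin D → ℝ) → Fin (d + 1) → ℂ) (Y : (Fin D → ℝ) → Fin (q + 1) → ℂ),
        ContDiff ℝ 2 X ∧ ContDiff ℝ 2 Y ∧ (∀ θ i, X (θ + Pi.single i 1) = X θ) ∧
        (∀ θ i, Y (θ + Pi.single i 1) = Y θ) ∧ (∀ θ j, X θ j ≠ 0) ∧ (∀ θ j, Y θ j ≠ 0) ∧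
        (∀ θ, c * eval₂ σ (vals (X θ)) (F.Phi 1) = eval₂ σ (vals (Y θ)) (G.Phi 1)) ∧
        (∀ θ, eval₂ σ (vals (Y θ)) (G.Phi 1) ≠ 0) ∧
        (∀ θ, ∃ j, eval₂ σ (vals (X θ)) (dlog j (F.Phi 1)) ≠ 0) ∧
        (∀ i : Ix σ F, ∀ z : Fin (D + 1) → (Fin D → ℝ) → ℂ, (∀ l, Good (z l)) →
          (∀ l θ, z (e (Sum.inl l)) θ * vf σ F (X θ) (i.1.1 l) 0 =
            vf σ F (X θ) (i.1.1 l) (i.1.2 l).succ) →
          (∀ l θ, z (e (Sum.inr l)) θ = Y θ l) →
          |pairing z / (-Real.log ‖c‖) - F.lead σ s.1.1 (P s) i.1.1 i.1.2 * D0 s| ≤ ε) ∧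
        ∀ i : J, ∀ z : Fin (D + 1) → (Fin D → ℝ) → ℂ, (∀ l, Good (z l)) →
          (∀ l θ, z (e (Sum.inl l)) θ = X θ l) →
          (∀ l θ, z (e (Sum.inr l)) θ * vf σ G (Y θ) (Sp i l) 0 =
            vf σ G (Y θ) (Sp i l) (lp i l).succ) →
          |pairing z / (-Real.log ‖c‖)| ≤ ε := by
  classical
  obtain ⟨A, hAdet, hA⟩ := exists_A hαG
  choose D0 hD0 hE using fun s : Ix σ F => exists_maps (F := F) (G := G) σ s.2.2.1 (hP s) hα hz hg
    (hk s) e hAdet hA hzG hgG hin (fun i : Ix σ F => i.1.1) (fun i => i.1.2) Sp lp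
  refine ⟨D0, hD0, fun ε hε => ?_⟩
  choose Λ hΛ1 hΛ using fun s : Ix σ F => hE s ε hε
  have hsum : 0 ≤ ∑ s, |Λ s| := Finset.sum_nonneg fun J _ => abs_nonneg _
  have hΛC : ∀ s, Λ s ≤ ∑ s, |Λ s| + 2 := by
    intro s
    have h1 := Finset.single_le_sum (f := fun s => |Λ s|) (fun s _ => abs_nonneg _)
      (Finset.mem_univ s)
    have h2 := le_abs_self (Λ s)
    have h3 : |Λ s| ≤ ∑ s, |Λ s| := h1
    linarith
  refine ⟨∑ s, |Λ s| + 2, by linarith, fun c hc => ⟨Real.log_pos (by linarith), fun s => ?_⟩⟩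
  exact (hΛ s c ((hΛC s).trans hc)).2

theorem exists_tori3 (σ τ : K →+* ℂ) (hα : ∀ e, F.al e ≠ 0) (hz : ∀ e i, F.z e i ≠ 0)
    (hinj : ∀ e, Function.Injective (F.z e)) (hg : F.g = 1) (hin : Inner F)
    (hα' : ∀ e, G.al e ≠ 0) (hz' : ∀ e i, G.z e i ≠ 0)
    (hinj' : ∀ e, Function.Injective (G.z e)) (hg' : G.g = 1) (hin' : Inner G) :
    ∃ C : ℝ, 0 < C ∧ ∀ lam : K, lam ≠ 0 → C ≤ ‖σ lam‖ → ‖τ lam‖ * C ≤ 1 →
      ∃ Γ : Ix σ F ⊕ Ix τ G → Torus (PRing F G lam) (d + 1 + q),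
        (∀ s θ x, (Γ (Sum.inl s)).e θ (pcst F G lam x) = σ x) ∧
        (∀ s θ x, (Γ (Sum.inr s)).e θ (pcst F G lam x) = τ x) ∧
        (∀ t θ, (∃ j, (Γ t).e θ (px F G lam (dlog j (F.Phi 1))) ≠ 0) ∨
          ∃ j, (Γ t).e θ (py F G lam (dlog j (G.Phi 1))) ≠ 0) ∧
        (Matrix.of fun t o : Ix σ F ⊕ Ix τ G =>
          (Γ t).reg (symb (pent σ τ F G lam o))).det ≠ 0 := by
  classical
  have hgF : F.g ≠ 0 := by
    rw [hg]
    exact one_ne_zero
  have hgG : G.g ≠ 0 := by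
    rw [hg']
    exact one_ne_zero
  choose P hP hk hn using fun s : Ix σ F => s.2.2.2
  choose P' hP' hk' hn' using fun s : Ix τ G => s.2.2.2
  set e1 : Fin (d + 1) ⊕ Fin (q + 1) ≃ Fin (d + 1 + q + 1) := finSumFinEquiv with he1
  set e2 : Fin (q + 1) ⊕ Fin (d + 1) ≃ Fin (d + 1 + q + 1) := (Equiv.sumComm _ _).trans e1
    with he2
  obtain ⟨D1, hD1, hE1⟩ := exists_block (F := F) (G := G) σ hα hz hgF e1 hα' hz' hg' hin'
    (fun s : Ix τ G => s.1.1) (fun s => s.1.2) P hP hk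
  obtain ⟨D2, hD2, hE2⟩ := exists_block (F := G) (G := F) τ hα' hz' hgG e2 hα hz hg hin
    (fun s : Ix σ F => s.1.1) (fun s => s.1.2) P' hP' hk'
  set M0 : Matrix (Ix σ F ⊕ Ix τ G) (Ix σ F ⊕ Ix τ G) ℝ := Matrix.of fun t o =>
    Sum.elim (fun s => Sum.elim (fun s' => F.lead σ s.1.1 (P s) s'.1.1 s'.1.2 * D1 s)
      (fun _ => 0) o)
      (fun s => Sum.elim (fun _ => 0)
        (fun s' => G.lead τ s.1.1 (P' s) s'.1.1 s'.1.2 * D2 s) o) t with hM0
  have hM : M0.det ≠ 0 := by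
    refine det_ne_zero_of_tri (fun o : Ix σ F ⊕ Ix τ G =>
      Sum.elim (fun s => ∑ l, (s.1.1 l : ℕ)) (fun s => ∑ l, (s.1.1 l : ℕ)) o) _ (fun t => ?_)
      (fun t o h => ?_)
    · cases t with
      | inl s => exact mul_ne_zero (lead_self σ hinj s.2.2.1 (hk s)) (hD1 s)
      | inr s => exact mul_ne_zero (lead_self τ hinj' s.2.2.1 (hk' s)) (hD2 s)
    · cases t with
      | inl s =>
        cases o with
        | inl s' =>
          have h' : F.lead σ s.1.1 (P s) s'.1.1 s'.1.2 ≠ 0 := left_ne_zero_of_mul h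
          rcases lead_other σ hinj s.2.1 s.2.2.1 (hk s) (hn s) s'.2.1 h' with h1 | h1
          · exact Or.inl (congrArg Sum.inl (Subtype.ext h1))
          · exact Or.inr h1
        | inr s' => exact absurd rfl h
      | inr s =>
        cases o with
        | inl s' => exact absurd rfl h
        | inr s' =>
          have h' : G.lead τ s.1.1 (P' s) s'.1.1 s'.1.2 ≠ 0 := left_ne_zero_of_mul h
          rcases lead_other τ hinj' s.2.1 s.2.2.1 (hk' s) (hn' s) s'.2.1 h' with h1 | h1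
          · exact Or.inl (congrArg Sum.inr (Subtype.ext h1))
          · exact Or.inr h1
  obtain ⟨δ, hδ, hdet⟩ := det_ne_zero_near M0 hM
  have hδ2 : 0 < δ / 2 := by linarith
  obtain ⟨Λ1, hΛ1, hB1⟩ := hE1 (δ / 2) hδ2
  obtain ⟨Λ2, hΛ2, hB2⟩ := hE2 (δ / 2) hδ2
  refine ⟨Λ1 + Λ2, by linarith, fun lam hl0 hσ hτ => ?_⟩
  have hτ0 : 0 < ‖τ lam‖ := norm_pos_iff.2 ((map_ne_zero τ).2 hl0)
  have hτl : τ lam ≠ 0 := (map_ne_zero τ).2 hl0
  have hc2 : Λ2 ≤ ‖(τ lam)⁻¹‖ := by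
    rw [norm_inv, le_inv_comm₀ (by linarith) hτ0, ← one_div, le_div_iff₀ (by linarith)]
    refine le_trans ?_ hτ
    exact mul_le_mul_of_nonneg_left (by linarith) hτ0.le
  obtain ⟨hlog1, hX1⟩ := hB1 (σ lam) (by linarith)
  obtain ⟨hlog2, hX2⟩ := hB2 (τ lam)⁻¹ hc2
  choose X1 Y1 hX1c hY1c hX1p hY1p hX10 hY10 hXY1 hne1 hgr1 hA1 hS1 using hX1
  choose Y2 X2 hY2c hX2c hY2p hX2p hY20 hX20 hXY2 hne2 hgr2 hA2 hS2 using hX2
  have hPt1 : ∀ s θ, PtP F G lam σ (X1 s θ) (Y1 s θ) := fun s θ =>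
    ⟨hX10 s θ, hY10 s θ, hne1 s θ, by
      rw [eval_Phi_smul F (hX10 s θ)]
      exact hXY1 s θ⟩
  have hPt2 : ∀ s θ, PtP F G lam τ (X2 s θ) (Y2 s θ) := fun s θ => by
    have h1 := hXY2 s θ
    have h2 := hne2 s θ
    refine ⟨hX20 s θ, hY20 s θ, fun h => h2 ?_, ?_⟩
    · rw [← h1, h, mul_zero]
    · rw [eval_Phi_smul F (hX20 s θ), ← h1, ← mul_assoc, mul_inv_cancel₀ hτl, one_mul]
  set Γ : Ix σ F ⊕ Ix τ G → Torus (PRing F G lam) (d + 1 + q) := Sum.elim
    (fun s => mkP (X1 s) (Y1 s) (hX1c s) (hY1c s) (hX1p s) (hY1p s) (hPt1 s))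
    (fun s => mkP (X2 s) (Y2 s) (hX2c s) (hY2c s) (hX2p s) (hY2p s) (hPt2 s)) with hΓ
  refine ⟨Γ, fun s θ x => evP_cst (hPt1 s θ) x, fun s θ x => evP_cst (hPt2 s θ) x,
    fun t θ => ?_, ?_⟩
  · cases t with
    | inl s =>
      left
      obtain ⟨j, hj⟩ := hgr1 s θ
      exact ⟨j, by
        show evP (hPt1 s θ) (px F G lam _) ≠ 0
        rw [evP_px]
        exact hj⟩
    | inr s =>
      right
      obtain ⟨j, hj⟩ := hgr2 s θ
      exact ⟨j, by
        show evP (hPt2 s θ) (py F G lam _) ≠ 0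
        rw [evP_py]
        exact hj⟩
  set c : Ix σ F ⊕ Ix τ G → ℝ := Sum.elim (fun _ => -Real.log ‖σ lam‖)
    (fun _ => -Real.log ‖(τ lam)⁻¹‖) with hc
  have hc0 : ∀ t, c t ≠ 0 := by
    intro t
    cases t with
    | inl s => exact (neg_neg_of_pos hlog1).ne
    | inr s => exact (neg_neg_of_pos hlog2).ne
  have hlt : δ / 2 < δ := by linarith
  have h1 : (Matrix.of fun t o : Ix σ F ⊕ Ix τ G =>
      (Γ t).reg (symb (pent σ τ F G lam o)) / c t).det ≠ 0 := by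
    refine hdet _ fun t o => ?_
    rw [hM0, Matrix.of_apply, Matrix.of_apply, Torus.reg_symb]
    cases t with
    | inl s =>
      cases o with
      | inl s' =>
        refine lt_of_le_of_lt (hA1 s s' (fun l => (Γ (Sum.inl s)).fn
          (pent σ τ F G lam (Sum.inl s') l : PRing F G lam)) (fun l => (Γ (Sum.inl s)).good _)
          (fun l θ => ?_) (fun l θ => ?_)) hlt
        · show evP (hPt1 s θ) ((Fin.append (entx F G lam s'.1.1 s'.1.2) (uy F G lam)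
              (Fin.castAdd (q + 1) l) : (PRing F G lam)ˣ) : PRing F G lam) * _ = _
          rw [Fin.append_left]
          exact evP_entx (hPt1 s θ) _ _ _
        · show evP (hPt1 s θ) ((Fin.append (entx F G lam s'.1.1 s'.1.2) (uy F G lam)
              (Fin.natAdd (d + 1) l) : (PRing F G lam)ˣ) : PRing F G lam) = _
          rw [Fin.append_right]
          exact evP_uy (hPt1 s θ) _
      | inr s' =>
        refine lt_of_le_of_lt ?_ hlt
        have h2 := hS1 s s' (fun l => (Γ (Sum.inl s)).fn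
          (pent σ τ F G lam (Sum.inr s') l : PRing F G lam)) (fun l => (Γ (Sum.inl s)).good _)
          (fun l θ => by
            show evP (hPt1 s θ) ((Fin.append (ux F G lam) (enty F G lam s'.1.1 s'.1.2)
              (Fin.castAdd (q + 1) l) : (PRing F G lam)ˣ) : PRing F G lam) = _
            rw [Fin.append_left]
            exact evP_ux (hPt1 s θ) _) (fun l θ => by
            show evP (hPt1 s θ) ((Fin.append (ux F G lam) (enty F G lam s'.1.1 s'.1.2)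
              (Fin.natAdd (d + 1) l) : (PRing F G lam)ˣ) : PRing F G lam) * _ = _
            rw [Fin.append_right]
            exact evP_enty (hPt1 s θ) _ _ _)
        rw [← sub_zero (pairing _ / _)] at h2
        exact h2
    | inr s =>
      cases o with
      | inl s' =>
        refine lt_of_le_of_lt ?_ hlt
        have h2 := hS2 s s' (fun l => (Γ (Sum.inr s)).fn
          (pent σ τ F G lam (Sum.inl s') l : PRing F G lam)) (fun l => (Γ (Sum.inr s)).good _)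
          (fun l θ => by
            show evP (hPt2 s θ) ((Fin.append (entx F G lam s'.1.1 s'.1.2) (uy F G lam)
              (Fin.natAdd (d + 1) l) : (PRing F G lam)ˣ) : PRing F G lam) = _
            rw [Fin.append_right]
            exact evP_uy (hPt2 s θ) _) (fun l θ => by
            show evP (hPt2 s θ) ((Fin.append (entx F G lam s'.1.1 s'.1.2) (uy F G lam)
              (Fin.castAdd (q + 1) l) : (PRing F G lam)ˣ) : PRing F G lam) * _ = _
            rw [Fin.append_left]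
            exact evP_entx (hPt2 s θ) _ _ _)
        rw [← sub_zero (pairing _ / _)] at h2
        exact h2
      | inr s' =>
        refine lt_of_le_of_lt (hA2 s s' (fun l => (Γ (Sum.inr s)).fn
          (pent σ τ F G lam (Sum.inr s') l : PRing F G lam)) (fun l => (Γ (Sum.inr s)).good _)
          (fun l θ => ?_) (fun l θ => ?_)) hlt
        · show evP (hPt2 s θ) ((Fin.append (ux F G lam) (enty F G lam s'.1.1 s'.1.2)
              (Fin.natAdd (d + 1) l) : (PRing F G lam)ˣ) : PRing F G lam) * _ = _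
          rw [Fin.append_right]
          exact evP_enty (hPt2 s θ) _ _ _
        · show evP (hPt2 s θ) ((Fin.append (ux F G lam) (enty F G lam s'.1.1 s'.1.2)
              (Fin.castAdd (q + 1) l) : (PRing F G lam)ˣ) : PRing F G lam) = _
          rw [Fin.append_left]
          exact evP_ux (hPt2 s θ) _
  have h2 : (Matrix.of fun t o : Ix σ F ⊕ Ix τ G => (Γ t).reg (symb (pent σ τ F G lam o))) =
      Matrix.of fun t o => c t * (Matrix.of fun t o : Ix σ F ⊕ Ix τ G =>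
        (Γ t).reg (symb (pent σ τ F G lam o)) / c t) t o := by
    ext t o
    rw [Matrix.of_apply, Matrix.of_apply, Matrix.of_apply]
    have := hc0 t
    field_simp
  rw [h2, Matrix.det_mul_column]
  exact mul_ne_zero (Finset.prod_ne_zero_iff.2 fun t _ => hc0 t) h1

end Pool.Agent.K7.H1.PP
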