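import Pool.Agent.K7.H1.PP.Def
import Pool.Agent.K7.H1.PP.Eng
set_option autoImplicit false

/-!
Complex points of the varieties `λ Φ_F(x) = Φ_G(y)`, and tori.
-/

namespace Pool.Agent.K7.H1.PP

open MvPolynomial

open Pool.Agent.TH826.MK (Torus Good)

open Pool.Agent.K7.H1.TO Pool.Agent.K7.H1.TO.Arr

variable {K : Type*} [Field K] {d q m m' n : ℕ} {F : Arr K d m} {G : Arr K q m'} {lam : K}
  {σ : K →+* ℂ}

/-- the complex points -/
structure PtP (F : Arr K d m) (G : Arr K q m') (lam : K) (σ : K →+* ℂ) (x : Fin (d + 1) → ℂ)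
    (y : Fin (q + 1) → ℂ) : Prop where
  x0 : ∀ j, x j ≠ 0
  y0 : ∀ j, y j ≠ 0
  ne : eval₂ σ (vals y) (G.Phi 1) ≠ 0
  eq : eval₂ σ (vals x) (F.Phi lam) = eval₂ σ (vals y) (G.Phi 1)

/-- the values of the variables -/
noncomputable def valsP (G : Arr K q m') (σ : K →+* ℂ) (x : Fin (d + 1) → ℂ)
    (y : Fin (q + 1) → ℂ) :
    (Fin (d + 1) ⊕ Fin (d + 1)) ⊕ ((Fin (q + 1) ⊕ Fin (q + 1)) ⊕ Unit) → ℂ :=
  Sum.elim (vals x) (Sum.elim (vals y) fun _ => (eval₂ σ (vals y) (G.Phi 1))⁻¹)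

theorem eval_inX (x : Fin (d + 1) → ℂ) (y : Fin (q + 1) → ℂ) (p : Pol K d) :
    eval₂ σ (valsP G σ x y) (inX p) = eval₂ σ (vals x) p := by
  show eval₂ σ (valsP G σ x y) (rename Sum.inl p) = _
  rw [eval₂_rename]
  rfl

theorem eval_inY (x : Fin (d + 1) → ℂ) (y : Fin (q + 1) → ℂ) (p : Pol K q) :
    eval₂ σ (valsP G σ x y) (inY p) = eval₂ σ (vals y) p := by
  show eval₂ σ (valsP G σ x y) (rename (fun i => Sum.inr (Sum.inl i)) p) = _
  rw [eval₂_rename]
  rfl

theorem eval_tv (x : Fin (d + 1) → ℂ) (y : Fin (q + 1) → ℂ) :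
    eval₂ σ (valsP G σ x y) tv = (eval₂ σ (vals y) (G.Phi 1))⁻¹ := by
  unfold tv
  rw [eval₂_X]
  rfl

/-- evaluation at a point -/
noncomputable def evP {x : Fin (d + 1) → ℂ} {y : Fin (q + 1) → ℂ} (h : PtP F G lam σ x y) :
    PRing F G lam →+* ℂ :=
  Ideal.Quotient.lift (idealP F G lam) (eval₂Hom σ (valsP G σ x y)) (by
    intro p hp
    have hle : idealP F G lam ≤ RingHom.ker (eval₂Hom σ (valsP G σ x y)) := by
      unfold idealP
      rw [Ideal.span_le]
      rintro p (rfl | rfl | ⟨j, rfl⟩ | ⟨j, rfl⟩)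
      · show eval₂ σ (valsP G σ x y) (inX (F.Phi lam) * tv - 1) = 0
        rw [eval₂_sub, eval₂_mul, eval_inX, eval_tv, eval₂_one, h.eq, mul_inv_cancel₀ h.ne,
          sub_self]
      · show eval₂ σ (valsP G σ x y) (inY (G.Phi 1) * tv - 1) = 0
        rw [eval₂_sub, eval₂_mul, eval_inY, eval_tv, eval₂_one, mul_inv_cancel₀ h.ne, sub_self]
      · show eval₂ σ (valsP G σ x y) (inX (X (Sum.inl j) * X (Sum.inr j) - 1)) = 0
        rw [eval_inX, eval₂_sub, eval₂_mul, eval₂_X, eval₂_X, eval₂_one]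
        show x j * (x j)⁻¹ - 1 = 0
        rw [mul_inv_cancel₀ (h.x0 j), sub_self]
      · show eval₂ σ (valsP G σ x y) (inY (X (Sum.inl j) * X (Sum.inr j) - 1)) = 0
        rw [eval_inY, eval₂_sub, eval₂_mul, eval₂_X, eval₂_X, eval₂_one]
        show y j * (y j)⁻¹ - 1 = 0
        rw [mul_inv_cancel₀ (h.y0 j), sub_self]
    exact hle hp)

variable {x : Fin (d + 1) → ℂ} {y : Fin (q + 1) → ℂ}

theorem evP_pmk (h : PtP F G lam σ x y) (p : PolP K d q) :
    evP h (pmk F G lam p) = eval₂ σ (valsP G σ x y) p := Ideal.Quotient.lift_mk _ _ _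

theorem evP_px (h : PtP F G lam σ x y) (p : Pol K d) :
    evP h (px F G lam p) = eval₂ σ (vals x) p := by
  show evP h (pmk F G lam (inX p)) = _
  rw [evP_pmk, eval_inX]

theorem evP_py (h : PtP F G lam σ x y) (p : Pol K q) :
    evP h (py F G lam p) = eval₂ σ (vals y) p := by
  show evP h (pmk F G lam (inY p)) = _
  rw [evP_pmk, eval_inY]

theorem evP_cst (h : PtP F G lam σ x y) (c : K) : evP h (pcst F G lam c) = σ c := by
  show evP h (pmk F G lam (C c)) = _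
  rw [evP_pmk, eval₂_C]

theorem evP_ux (h : PtP F G lam σ x y) (j : Fin (d + 1)) :
    evP h (ux F G lam j : PRing F G lam) = x j := by
  show evP h (px F G lam (X (Sum.inl j))) = _
  rw [evP_px, eval₂_X]
  rfl

theorem evP_uy (h : PtP F G lam σ x y) (j : Fin (q + 1)) :
    evP h (uy F G lam j : PRing F G lam) = y j := by
  show evP h (py F G lam (X (Sum.inl j))) = _
  rw [evP_py, eval₂_X]
  rfl

theorem evP_fx (h : PtP F G lam σ x y) (e : Fin m) (i : Fin (F.r e + 1)) :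
    evP h (fx F G lam e i : PRing F G lam) = vf σ F x e i := by
  show evP h (px F G lam (F.fac e i)) = _
  rw [evP_px, eval_fac h.x0]
  rfl

theorem evP_fy (h : PtP F G lam σ x y) (e : Fin m') (i : Fin (G.r e + 1)) :
    evP h (fy F G lam e i : PRing F G lam) = vf σ G y e i := by
  show evP h (py F G lam (G.fac e i)) = _
  rw [evP_py, eval_fac h.y0]
  rfl

theorem evP_entx (h : PtP F G lam σ x y) (T : Fin (d + 1) → Fin m) (k : ∀ l, Fin (F.r (T l)))
    (l : Fin (d + 1)) : evP h (entx F G lam T k l : PRing F G lam) * vf σ F x (T l) 0 =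
      vf σ F x (T l) (k l).succ := by
  rw [← evP_fx h, ← evP_fx h, ← map_mul]
  congr 1
  unfold entx
  rw [← Units.val_mul, div_mul_cancel]

theorem evP_enty (h : PtP F G lam σ x y) (T : Fin (q + 1) → Fin m') (k : ∀ l, Fin (G.r (T l)))
    (l : Fin (q + 1)) : evP h (enty F G lam T k l : PRing F G lam) * vf σ G y (T l) 0 =
      vf σ G y (T l) (k l).succ := by
  rw [← evP_fy h, ← evP_fy h, ← map_mul]
  congr 1
  unfold enty
  rw [← Units.val_mul, div_mul_cancel]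

theorem evP_congr {x' : Fin (d + 1) → ℂ} {y' : Fin (q + 1) → ℂ} (h : PtP F G lam σ x y)
    (h' : PtP F G lam σ x' y') (hx : x = x') (hy : y = y') : evP h = evP h' := by
  subst hx
  subst hy
  rfl

theorem contDiff_eval {ι : Type*} {v : (Fin n → ℝ) → ι → ℂ}
    (hv : ∀ k, ContDiff ℝ 2 fun θ => v θ k) (p : MvPolynomial ι K) :
    ContDiff ℝ 2 fun θ => eval₂ σ (v θ) p := by
  induction p using MvPolynomial.induction_on with
  | C c => simpa using contDiff_const
  | add p q hp hq => simpa using hp.add hq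
  | mul_X p k hp => simpa using hp.mul (hv k)

theorem contDiff_evP {X : (Fin n → ℝ) → Fin (d + 1) → ℂ} {Y : (Fin n → ℝ) → Fin (q + 1) → ℂ}
    (hX : ContDiff ℝ 2 X) (hY : ContDiff ℝ 2 Y) (h : ∀ θ, PtP F G lam σ (X θ) (Y θ))
    (a : PRing F G lam) : ContDiff ℝ 2 fun θ => evP (h θ) a := by
  have hx : ∀ k, ContDiff ℝ 2 fun θ => vals (X θ) k := by
    rintro (k | k)
    · exact contDiff_pi.1 hX k
    · exact (contDiff_pi.1 hX k).inv fun θ => (h θ).x0 k
  have hy : ∀ k, ContDiff ℝ 2 fun θ => vals (Y θ) k := by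
    rintro (k | k)
    · exact contDiff_pi.1 hY k
    · exact (contDiff_pi.1 hY k).inv fun θ => (h θ).y0 k
  have hv : ∀ k, ContDiff ℝ 2 fun θ => valsP G σ (X θ) (Y θ) k := by
    rintro (k | k | k)
    · exact hx k
    · exact hy k
    · exact (contDiff_eval hy (G.Phi 1)).inv fun θ => (h θ).ne
  obtain ⟨p, hp⟩ := Ideal.Quotient.mk_surjective a
  have e : (fun θ => evP (h θ) a) = fun θ => eval₂ σ (valsP G σ (X θ) (Y θ)) p := by
    funext θ
    rw [← hp]
    exact evP_pmk (h θ) p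
  rw [e]
  exact contDiff_eval hv p

/-- a torus in the variety -/
noncomputable def mkP (X : (Fin n → ℝ) → Fin (d + 1) → ℂ) (Y : (Fin n → ℝ) → Fin (q + 1) → ℂ)
    (hX : ContDiff ℝ 2 X) (hY : ContDiff ℝ 2 Y) (hXp : ∀ θ i, X (θ + Pi.single i 1) = X θ)
    (hYp : ∀ θ i, Y (θ + Pi.single i 1) = Y θ) (h : ∀ θ, PtP F G lam σ (X θ) (Y θ)) :
    Torus (PRing F G lam) n where
  e θ := evP (h θ)
  smooth a := contDiff_evP hX hY h a
  periodic θ i := evP_congr _ _ (hXp θ i) (hYp θ i)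

theorem eval_Phi_smul (H : Arr K d m) {x : Fin (d + 1) → ℂ} (hx : ∀ j, x j ≠ 0) (c : K) :
    eval₂ σ (vals x) (H.Phi c) = σ c * eval₂ σ (vals x) (H.Phi 1) := by
  rw [eval_Phi hx, eval_Phi hx, map_one, one_mul]
  ring

end Pool.Agent.K7.H1.PP
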