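import Pool.Agent.K7.H1.TU.Unr
set_option autoImplicit false

/-!
Valuations of monomials and of the factors of the equations of toric arrangements.
-/

namespace Pool.Agent.K7.H1.PP

open MvPolynomial

open scoped WithZero

open Pool.Agent.TH826.MK

open Pool.Agent.K7.H1.TO

open Pool.Agent.K7.H1.TU (Inner)

open Pool.Agent.K7.H52.TF (mono symb_mem_of_mono)

section mono

variable {L : Type*} [Field L] {n p : ℕ}

/-- A symbol is in the unit part if a power of a monomial in its entries is a one-unit. -/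
theorem mem_of_mono (v : Valuation L ℤᵐ⁰) (z : Fin n → Lˣ) {δ : Fin n → ℤ} (hδ : δ ≠ 0) {m : ℕ}
    (hm : 0 < m) (h : v ((mono z δ : L) ^ m - 1) < 1) : symb z ∈ unitPart v n := by
  classical
  obtain ⟨j0, hj0⟩ : ∃ j, δ j ≠ 0 := by
    by_contra hcon
    push Not at hcon
    exact hδ (funext hcon)
  refine symb_mem_of_mono z ((1 : Matrix (Fin n) (Fin n) ℤ).updateRow j0 δ) ?_ ?_
  · have h2 := Matrix.cramer_transpose_apply (1 : Matrix (Fin n) (Fin n) ℤ) δ j0
    rw [← h2, Matrix.transpose_one, Matrix.cramer_one]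
    exact hj0
  · refine mem_unitPart_of_pow v j0 _ hm.ne' ?_
    rw [Matrix.updateRow_self]
    exact h

theorem mono_extend (z : Fin n → Lˣ) {i : Fin p → Fin n} (hi : Function.Injective i)
    (β : Fin p → ℤ) : mono z (Function.extend i β 0) = mono (fun l => z (i l)) β := by
  unfold mono
  refine (Fintype.prod_of_injective i hi _ _ (fun k hk => ?_) fun l => ?_).symm
  · rw [Function.extend_apply' _ _ _ (fun ⟨l, hl⟩ => hk ⟨l, hl⟩), Pi.zero_apply, zpow_zero]
  · rw [hi.extend_apply]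

theorem mem_of_mono' (v : Valuation L ℤᵐ⁰) (z : Fin n → Lˣ) {i : Fin p → Fin n}
    (hi : Function.Injective i) {β : Fin p → ℤ} (hβ : β ≠ 0) {m : ℕ} (hm : 0 < m)
    (h : v ((mono (fun l => z (i l)) β : L) ^ m - 1) < 1) : symb z ∈ unitPart v n := by
  refine mem_of_mono v z (δ := Function.extend i β 0) (fun h0 => hβ (funext fun l => ?_)) hm ?_
  · have h1 := congrFun h0 (i l)
    rw [hi.extend_apply] at h1
    exact h1
  · rw [mono_extend z hi]
    exact h

theorem v_root (v : Valuation L ℤᵐ⁰) {a : L} (ha : ∃ n : ℕ, 0 < n ∧ a ^ n = 1) : v a = 1 := by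
  obtain ⟨n, hn, h⟩ := ha
  have h1 : v a ^ n = 1 := by rw [← map_pow, h, map_one]
  exact (pow_eq_one_iff_of_nonneg zero_le hn.ne').1 h1

theorem pow_sub_one_lt (v : Valuation L ℤᵐ⁰) {z b : L} {n : ℕ} (hbn : b ^ n = 1)
    (hz : v z ≤ 1) (hb : v b = 1) (h : v (z - b) < 1) : v (z ^ n - 1) < 1 := by
  have h4 : z ^ n - 1 = (z - b) * ∑ i ∈ Finset.range n, z ^ i * b ^ (n - 1 - i) := by
    rw [mul_comm, Commute.geom_sum₂_mul (Commute.all _ _), hbn]
  rw [h4, map_mul]
  refine mul_lt_one_of_lt_of_le h ?_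
  refine Valuation.map_sum_le v fun i _ => ?_
  rw [map_mul, map_pow, map_pow, hb, one_pow, mul_one]
  exact pow_le_one' hz _

theorem ent_pow (v : Valuation L ℤᵐ⁰) {z a b : L} (ha : ∃ n : ℕ, 0 < n ∧ a ^ n = 1)
    (hb : ∃ n : ℕ, 0 < n ∧ b ^ n = 1) (hl : v z ≠ 1) :
    ∃ n : ℕ, 0 < n ∧ v (((z - a) / (z - b)) ^ n - 1) < 1 := by
  have hva := v_root v ha
  have hvb := v_root v hb
  have hb0 : b ≠ 0 := by
    intro h
    rw [h, map_zero] at hvb
    exact zero_ne_one hvb
  have hub : z - b ≠ 0 := by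
    intro h
    rw [sub_eq_zero] at h
    rw [h] at hl
    exact hl hvb
  have hab : v (a - b) ≤ 1 := (Valuation.map_sub v _ _).trans (max_le hva.le hvb.le)
  obtain ⟨n, hn, han⟩ : ∃ n : ℕ, 0 < n ∧ (a / b) ^ n = 1 := by
    obtain ⟨n1, hn1, h1⟩ := ha
    obtain ⟨n2, hn2, h2⟩ := hb
    refine ⟨n1 * n2, Nat.mul_pos hn1 hn2, ?_⟩
    rw [div_pow, pow_mul, h1, one_pow, mul_comm, pow_mul, h2, one_pow, div_one]
  rcases lt_or_gt_of_ne hl with h1 | h1
  · -- a zero
    refine ⟨n, hn, ?_⟩
    have hzb : v (z - b) = 1 := by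
      rw [Valuation.map_sub_eq_of_lt_right v (by rw [hvb]; exact h1)]
      exact hvb
    have h2 : v ((z - a) / (z - b) - a / b) < 1 := by
      have e : (z - a) / (z - b) - a / b = z * (b - a) / (b * (z - b)) := by
        field_simp
        ring
      rw [e, map_div₀, map_mul, map_mul, hvb, hzb, one_mul, div_one, Valuation.map_sub_swap]
      exact mul_lt_one_of_lt_of_le h1 hab
    have h3 : v ((z - a) / (z - b)) ≤ 1 := by
      have e : (z - a) / (z - b) = ((z - a) / (z - b) - a / b) + a / b := by ring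
      rw [e]
      refine (Valuation.map_add v _ _).trans (max_le h2.le ?_)
      rw [map_div₀, hva, hvb, div_one]
    exact pow_sub_one_lt v han h3 (by rw [map_div₀, hva, hvb, div_one]) h2
  · -- a pole
    refine ⟨1, one_pos, ?_⟩
    have hzb : v (z - b) = v z := by
      rw [Valuation.map_sub_eq_of_lt_left v (by rw [hvb]; exact h1)]
    have e : (z - a) / (z - b) - 1 = (b - a) / (z - b) := by
      field_simp
      ring
    rw [pow_one, e, map_div₀, hzb, Valuation.map_sub_swap]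
    rw [div_lt_one₀ (zero_lt_one.trans h1)]
    exact hab.trans_lt h1

theorem v_mono (v : Valuation L ℤᵐ⁰) {x : Fin n → Lˣ} {a : Fin n → ℤ}
    (ha : ∀ j, v (x j : L) = WithZero.exp (a j)) (δ : Fin n → ℤ) :
    v (mono x δ : L) = WithZero.exp (a ⬝ᵥ δ) := by
  unfold mono
  rw [Units.coe_prod, map_prod]
  have h : ∀ s : Finset (Fin n), ∏ j ∈ s, v ((x j ^ δ j : Lˣ) : L) =
      WithZero.exp (∑ j ∈ s, a j * δ j) := by
    intro s
    classical
    induction s using Finset.induction_on with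
    | empty => simp
    | insert j s hj ih =>
      rw [Finset.prod_insert hj, Finset.sum_insert hj, ih, WithZero.exp_add,
        Units.val_zpow_eq_zpow_val, map_zpow₀, ha, ← WithZero.exp_zsmul, smul_eq_mul, mul_comm (δ j)]
  exact h _

theorem v_mono_one (v : Valuation L ℤᵐ⁰) {x : Fin n → Lˣ} (h : ∀ j, v (x j : L) = 1)
    (δ : Fin n → ℤ) : v (mono x δ : L) = 1 := by
  rw [v_mono v (a := 0) (fun j => by rw [h]; rfl), zero_dotProduct, WithZero.exp_zero]

end mono

section arr

variable {K : Type*} [Field K] {d m : ℕ} {F : Arr K d m} {L : Type*} [Field L]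

theorem v_of_mat (v : Valuation L ℤᵐ⁰) {x : Fin (d + 1) → Lˣ} {T : Fin (d + 1) → Fin m}
    (hT : (F.mat T).det ≠ 0) (h : ∀ l, v (mono x (F.al (T l)) : L) = 1) (j : Fin (d + 1)) :
    v (x j : L) = 1 := by
  choose a ha using fun j => exists_ord v (x j)
  have h1 : (F.mat T).mulVec a = 0 := by
    funext l
    have h2 := h l
    rw [v_mono v ha, ← WithZero.exp_zero, WithZero.exp_inj] at h2
    rw [Pi.zero_apply, ← h2]
    unfold Matrix.mulVec Arr.mat
    rw [dotProduct_comm]
    rfl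
  have h2 := Matrix.eq_zero_of_mulVec_eq_zero hT h1
  rw [ha, h2]
  rfl

/-- the value of a factor -/
noncomputable def facL (f : K →+* L) (F : Arr K d m) (x : Fin (d + 1) → Lˣ) (e : Fin m)
    (i : Fin (F.r e + 1)) : L := (mono x (F.al e) : L) - f (F.z e i)

/-- the value of the equation -/
noncomputable def phiL (f : K →+* L) (F : Arr K d m) (x : Fin (d + 1) → Lˣ) : L :=
  eval₂ f (fun j => (x j : L)) F.g * (mono x (-F.ga) : L) *
    ∏ e, ∏ i, facL f F x e i ^ (F.w e i + 1)

theorem roots_map (f : K →+* L) {a : K} (h : ∃ n : ℕ, 0 < n ∧ a ^ n = 1) :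
    ∃ n : ℕ, 0 < n ∧ f a ^ n = 1 := by
  obtain ⟨n, hn, h⟩ := h
  exact ⟨n, hn, by rw [← map_pow, h, map_one]⟩

theorem int_map (f : K →+* L) (v : Valuation L ℤᵐ⁰) {c : K} (hc : IsIntegral ℤ c) :
    v (f c) ≤ 1 :=
  val_le_one_of_integral v (IsIntegral.map_of_comp_eq (RingHom.id ℤ) f (RingHom.ext_int _ _) hc)

theorem v_facL_le (f : K →+* L) (v : Valuation L ℤᵐ⁰)
    (hz : ∀ e i, ∃ n : ℕ, 0 < n ∧ F.z e i ^ n = 1) {x : Fin (d + 1) → Lˣ}
    (hx : ∀ j, v (x j : L) = 1) (e : Fin m) (i : Fin (F.r e + 1)) : v (facL f F x e i) ≤ 1 := by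
  unfold facL
  refine (Valuation.map_sub v _ _).trans (max_le (v_mono_one v hx _).le ?_)
  exact (v_root v (roots_map f (hz e i))).le

theorem v_poly_le (f : K →+* L) (v : Valuation L ℤᵐ⁰) {p : ℕ} {g : MvPolynomial (Fin p) K}
    (hg : ∀ k, IsIntegral ℤ (g.coeff k)) {x : Fin p → Lˣ} (hx : ∀ j, v (x j : L) = 1) :
    v (eval₂ f (fun j => (x j : L)) g) ≤ 1 := by
  rw [eval₂_eq]
  refine Valuation.map_sum_le v fun k _ => ?_
  rw [map_mul, map_prod]
  refine mul_le_one' (int_map f v (hg k)) ?_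
  refine Finset.prod_le_one' fun j _ => ?_
  rw [map_pow, hx, one_pow]

theorem v_phiL_le (f : K →+* L) (v : Valuation L ℤᵐ⁰)
    (hz : ∀ e i, ∃ n : ℕ, 0 < n ∧ F.z e i ^ n = 1) (hg : ∀ k, IsIntegral ℤ (F.g.coeff k))
    {x : Fin (d + 1) → Lˣ} (hx : ∀ j, v (x j : L) = 1) : v (phiL f F x) ≤ 1 := by
  unfold phiL
  rw [map_mul, map_mul, v_mono_one v hx, mul_one, map_prod]
  refine mul_le_one' (v_poly_le f v hg hx) ?_
  refine Finset.prod_le_one' fun e _ => ?_
  rw [map_prod]
  refine Finset.prod_le_one' fun i _ => ?_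
  rw [map_pow]
  exact pow_le_one' (v_facL_le f v hz hx e i) _

theorem v_facL_one (f : K →+* L) (v : Valuation L ℤᵐ⁰)
    (hz : ∀ e i, ∃ n : ℕ, 0 < n ∧ F.z e i ^ n = 1) (hg : ∀ k, IsIntegral ℤ (F.g.coeff k))
    {x : Fin (d + 1) → Lˣ} (hx : ∀ j, v (x j : L) = 1) (h1 : v (phiL f F x) = 1) (e : Fin m)
    (i : Fin (F.r e + 1)) : v (facL f F x e i) = 1 := by
  have hfac := v_facL_le f v hz hx
  unfold phiL at h1
  rw [map_mul, map_mul, v_mono_one v hx, mul_one, map_prod] at h1
  have hle1 : ∀ e, v (∏ i, facL f F x e i ^ (F.w e i + 1)) ≤ 1 := fun e => by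
    rw [map_prod]
    refine Finset.prod_le_one' fun i _ => ?_
    rw [map_pow]
    exact pow_le_one' (hfac e i) _
  have h2 := (Arr.v_mul_eq_one (v_poly_le f v hg hx)
    (Finset.prod_le_one' fun e _ => hle1 e) h1).2
  rw [← Finset.mul_prod_erase Finset.univ _ (Finset.mem_univ e)] at h2
  have h3 := (Arr.v_mul_eq_one (hle1 e) (Finset.prod_le_one' fun e _ => hle1 e) h2).1
  rw [map_prod, ← Finset.mul_prod_erase Finset.univ _ (Finset.mem_univ i), pow_succ, map_mul,
    mul_assoc, mul_left_comm] at h3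
  refine (Arr.v_mul_eq_one (hfac e i) ?_ h3).1
  rw [map_pow]
  refine mul_le_one' (pow_le_one' (hfac e i) _) (Finset.prod_le_one' fun i _ => ?_)
  rw [map_pow]
  exact pow_le_one' (hfac e i) _

/-- If the value of the equation of an arrangement is integral, then it and the coordinates are units,
or a power of a character of the arrangement is a one-unit. -/
theorem inner_dich (f : K →+* L) (v : Valuation L ℤᵐ⁰)
    (hz : ∀ e i, ∃ n : ℕ, 0 < n ∧ F.z e i ^ n = 1) (hg : F.g = 1) (hin : Inner F)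
    {x : Fin (d + 1) → Lˣ} (h : v (phiL f F x) ≤ 1) :
    (∃ e, ∃ n : ℕ, 0 < n ∧ v ((mono x (F.al e) : L) ^ n - 1) < 1) ∨
      (∀ j, v (x j : L) = 1) ∧ v (phiL f F x) = 1 := by
  classical
  choose a ha using fun j => exists_ord v (x j)
  have hxz := v_mono v ha
  by_cases hc : ∃ e i, v (facL f F x e i) < WithZero.exp (max 0 (a ⬝ᵥ F.al e))
  · left
    obtain ⟨e, i, hei⟩ := hc
    unfold facL at hei
    have hvz := v_root v (roots_map f (hz e i))
    have h0 : a ⬝ᵥ F.al e = 0 := by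
      by_contra hne
      rcases lt_or_gt_of_ne hne with h1 | h1
      · rw [max_eq_left h1.le, Valuation.map_sub_eq_of_lt_right v (by
          rw [hvz, hxz, ← WithZero.exp_zero]
          exact WithZero.exp_lt_exp.2 h1), hvz, WithZero.exp_zero] at hei
        exact lt_irrefl _ hei
      · rw [max_eq_right h1.le, Valuation.map_sub_eq_of_lt_left v (by
          rw [hvz, hxz, ← WithZero.exp_zero]
          exact WithZero.exp_lt_exp.2 h1), hxz] at hei
        exact lt_irrefl _ hei
    rw [h0, max_self, WithZero.exp_zero] at hei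
    obtain ⟨n, hn, hroot⟩ := roots_map f (hz e i)
    refine ⟨e, n, hn, pow_sub_one_lt v hroot ?_ hvz hei⟩
    rw [hxz, h0, WithZero.exp_zero]
  · right
    push Not at hc
    have hfac : ∀ e i, v (facL f F x e i) = WithZero.exp (max 0 (a ⬝ᵥ F.al e)) := by
      intro e i
      refine le_antisymm ?_ (hc e i)
      unfold facL
      refine (Valuation.map_sub v _ _).trans (max_le ?_ ?_)
      · rw [hxz]
        exact WithZero.exp_le_exp.2 (le_max_right _ _)
      · rw [v_root v (roots_map f (hz e i)), ← WithZero.exp_zero]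
        exact WithZero.exp_le_exp.2 (le_max_left _ _)
    have hexp : ∀ {ι : Type} (s : Finset ι) (b : ι → ℤ),
        ∏ i ∈ s, WithZero.exp (b i) = WithZero.exp (∑ i ∈ s, b i) := by
      intro ι s b
      induction s using Finset.induction_on with
      | empty => simp
      | insert j s hj ih => rw [Finset.prod_insert hj, Finset.sum_insert hj, ih, WithZero.exp_add]
    have hv : v (phiL f F x) = WithZero.exp (-(a ⬝ᵥ F.ga) +
        ∑ e, ∑ i, ((F.w e i : ℤ) + 1) * max 0 (a ⬝ᵥ F.al e)) := by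
      unfold phiL
      rw [hg, eval₂_one, one_mul, map_mul, hxz, dotProduct_neg, WithZero.exp_add]
      congr 1
      rw [map_prod, ← hexp]
      refine Finset.prod_congr rfl fun e _ => ?_
      rw [map_prod, ← hexp]
      refine Finset.prod_congr rfl fun i _ => ?_
      rw [map_pow, hfac, ← WithZero.exp_nsmul, nsmul_eq_mul]
      push_cast
      rfl
    have ha0 : a = 0 := by
      by_contra hne
      rw [hv, ← WithZero.exp_zero] at h
      have h1 := WithZero.exp_le_exp.1 h
      have := hin a hne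
      linarith
    refine ⟨fun j => ?_, ?_⟩
    · rw [ha, ha0]
      rfl
    · rw [hv, ha0]
      simp

end arr

end Pool.Agent.K7.H1.PP
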