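import Pool.Agent.K7.H1.PP.Def
import Pool.Agent.K7.H1.PP.Val
set_option autoImplicit false

/-!
The symbols are unramified.
-/

namespace Pool.Agent.K7.H1.PP

open MvPolynomial

open scoped WithZero

open Pool.Agent.TH826.MK

open Pool.Agent.K7.H1.TO

open Pool.Agent.K7.H1.TU (Inner)

open Pool.Agent.K7.H52.TF (mono)

section core

variable {K : Type*} [Field K] {d q m m' n : ℕ} {F : Arr K d m} {G : Arr K q m'} {L : Type*}
  [Field L]

theorem core (f : K →+* L) (v : Valuation L ℤᵐ⁰) {i : Fin (d + 1) → Fin n}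
    {j : Fin (q + 1) → Fin n} (hj : Function.Injective j)
    (hij : ∀ k, (∃ l, i l = k) ∨ ∃ l, j l = k)
    (hzF : ∀ e i, ∃ n : ℕ, 0 < n ∧ F.z e i ^ n = 1) (hzG : ∀ e i, ∃ n : ℕ, 0 < n ∧ G.z e i ^ n = 1)
    (hgF : ∀ k, IsIntegral ℤ (F.g.coeff k)) (hgG : G.g = 1) (hαG : ∀ e, G.al e ≠ 0)
    (hin : Inner G) {x : Fin (d + 1) → Lˣ} {z : Fin n → Lˣ} {T : Fin (d + 1) → Fin m}
    (hT : (F.mat T).det ≠ 0) {k : ∀ l, Fin (F.r (T l))}
    (hzx : ∀ l, (z (i l) : L) = facL f F x (T l) (k l).succ / facL f F x (T l) 0)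
    {c : L} (hc : v c ≤ 1) (heq : phiL f G (fun l => z (j l)) = c * phiL f F x) :
    symb z ∈ unitPart v n := by
  by_cases hl : ∃ l, v (mono x (F.al (T l)) : L) ≠ 1
  · obtain ⟨l, hl⟩ := hl
    obtain ⟨n, hn, h⟩ := ent_pow v (roots_map f (hzF (T l) (k l).succ))
      (roots_map f (hzF (T l) 0)) hl
    refine mem_unitPart_of_pow v (i l) _ hn.ne' ?_
    rw [hzx]
    exact h
  · push Not at hl
    have hx := v_of_mat v hT hl
    have h1 := v_phiL_le f v hzF hgF hx
    have h2 : v (phiL f G fun l => z (j l)) ≤ 1 := by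
      rw [heq, map_mul]
      exact mul_le_one' hc h1
    rcases inner_dich f v hzG hgG hin h2 with ⟨e, n, hn, h3⟩ | ⟨hy, h3⟩
    · exact mem_of_mono' v z hj (hαG e) hn h3
    · rw [heq, map_mul] at h3
      have h4 := (Arr.v_mul_eq_one hc h1 h3).2
      have h5 := v_facL_one f v hzF hgF hx h4
      refine Submodule.subset_span ⟨_, fun k' => ?_, rfl⟩
      rcases hij k' with ⟨l, rfl⟩ | ⟨l, rfl⟩
      · rw [hzx, map_div₀, h5, h5, div_one]
      · exact hy l

end core

section main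

variable {K : Type*} [Field K] {d q m m' : ℕ} {F : Arr K d m} {G : Arr K q m'} {lam : K}
  {L : Type*} [Field L] (f : PRing F G lam →+* L)

theorem map_mon {B : Type*} [CommRing B] {n : ℕ} (φ : Pol K n →+* B) (u : Fin (n + 1) → Bˣ)
    (h1 : ∀ j, φ (X (Sum.inl j)) = (u j : B)) (h2 : ∀ j, φ (X (Sum.inr j)) = ((u j)⁻¹ : Bˣ))
    (δ : Fin (n + 1) → ℤ) : φ (mon δ) = ((∏ j, u j ^ δ j : Bˣ) : B) := by
  unfold mon
  rw [map_prod, Units.coe_prod]
  refine Finset.prod_congr rfl fun j _ => ?_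
  rw [map_mul, map_pow, map_pow, h1, h2, ← Units.val_pow_eq_pow_val, ← Units.val_pow_eq_pow_val,
    ← Units.val_mul]
  congr 1
  rw [← zpow_natCast, ← zpow_natCast, inv_zpow', ← zpow_add]
  congr 1
  omega

/-- the values of the coordinates -/
noncomputable def xL (j : Fin (d + 1)) : Lˣ := Units.map (f : PRing F G lam →* L) (ux F G lam j)

/-- the values of the coordinates -/
noncomputable def yL (j : Fin (q + 1)) : Lˣ := Units.map (f : PRing F G lam →* L) (uy F G lam j)

theorem hom_general {n k : ℕ} (H : Arr K n k) (φ : Pol K n →+* L) (f : K →+* L)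
    (hf : φ.comp C = f) (u : Fin (n + 1) → Lˣ) (h1 : ∀ j, φ (X (Sum.inl j)) = (u j : L))
    (h2 : ∀ j, φ (X (Sum.inr j)) = ((u j)⁻¹ : Lˣ)) (c : K) :
    (∀ e i, φ (H.fac e i) = facL f H u e i) ∧ φ (H.Phi c) = f c * phiL f H u := by
  have h3 : ∀ e i, φ (H.fac e i) = facL f H u e i := by
    intro e i
    unfold Arr.fac facL mono
    rw [map_sub, map_mon φ u h1 h2, ← hf]
    rfl
  refine ⟨h3, ?_⟩
  unfold Arr.Phi phiL
  rw [map_mul, map_mul, map_mul, map_mon φ u h1 h2, map_prod]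
  simp only [map_prod, map_pow, h3]
  have h4 : φ (rename Sum.inl H.g) = eval₂ f (fun j => (u j : L)) H.g := by
    have h5 : φ.comp (rename Sum.inl : MvPolynomial (Fin (n + 1)) K →ₐ[K] Pol K n).toRingHom =
        eval₂Hom f fun j => (u j : L) := by
      apply MvPolynomial.ringHom_ext
      · intro r
        simp only [AlgHom.toRingHom_eq_coe, RingHom.comp_apply, RingHom.coe_coe, rename_C,
          coe_eval₂Hom, eval₂_C, ← hf]
      · intro i
        simp only [AlgHom.toRingHom_eq_coe, RingHom.comp_apply, RingHom.coe_coe, rename_X,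
          coe_eval₂Hom, eval₂_X, h1]
    exact congrArg (fun g => g H.g) h5
  have h6 : φ (C c) = f c := by
    rw [← hf]
    rfl
  rw [h4, h6, mul_assoc]
  rfl

theorem hom_x : (∀ e i, f (fx F G lam e i : PRing F G lam) =
    facL (f.comp (pcst F G lam)) F (xL f) e i) ∧
    f (px F G lam (F.Phi lam)) = f (pcst F G lam lam) * phiL (f.comp (pcst F G lam)) F (xL f) := by
  have h := hom_general F (f.comp (px F G lam)) (f.comp (pcst F G lam))
    (RingHom.ext fun c => by
      show f (pmk F G lam (inX (C c))) = f (pmk F G lam (C c))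
      congr 2
      exact rename_C _ _) (xL f) (fun j => rfl) (fun j => by
        unfold xL
        rw [← map_inv]
        rfl) lam
  exact ⟨fun e i => h.1 e i, h.2⟩

theorem hom_y : (∀ e i, f (fy F G lam e i : PRing F G lam) =
    facL (f.comp (pcst F G lam)) G (yL f) e i) ∧
    f (py F G lam (G.Phi 1)) = phiL (f.comp (pcst F G lam)) G (yL f) := by
  have h := hom_general G (f.comp (py F G lam)) (f.comp (pcst F G lam))
    (RingHom.ext fun c => by
      show f (pmk F G lam (inY (C c))) = f (pmk F G lam (C c))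
      congr 2
      exact rename_C _ _) (yL f) (fun j => rfl) (fun j => by
        unfold yL
        rw [← map_inv]
        rfl) 1
  refine ⟨fun e i => h.1 e i, ?_⟩
  have h2 := h.2
  rw [map_one, one_mul] at h2
  exact h2

theorem eq_yx : phiL (f.comp (pcst F G lam)) G (yL f) =
    f (pcst F G lam lam) * phiL (f.comp (pcst F G lam)) F (xL f) := by
  rw [← (hom_x f).2, ← (hom_y f).2]
  have h1 := congrArg f (px_Phi F G lam)
  have h2 := congrArg f (py_Phi F G lam)
  rw [map_mul, map_one] at h1 h2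
  have h3 : f (pt F G lam) ≠ 0 := by
    intro h
    rw [h, mul_zero] at h1
    exact zero_ne_one h1
  refine mul_right_cancel₀ h3 ?_
  rw [h1, h2]

theorem symA_mem (hzF : ∀ e i, ∃ n : ℕ, 0 < n ∧ F.z e i ^ n = 1)
    (hzG : ∀ e i, ∃ n : ℕ, 0 < n ∧ G.z e i ^ n = 1) (hgF : ∀ k, IsIntegral ℤ (F.g.coeff k))
    (hgG : G.g = 1) (hαG : ∀ e, G.al e ≠ 0) (hin : Inner G) (hlam : IsIntegral ℤ lam)
    {T : Fin (d + 1) → Fin m} (hT : (F.mat T).det ≠ 0) (k : ∀ l, Fin (F.r (T l))) :
    KQ.map (d + 1 + (q + 1)) f (symb (Fin.append (entx F G lam T k) (uy F G lam))) ∈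
      Unramified L (d + 1 + (q + 1)) := by
  rw [KQ.map_symb]
  unfold Unramified
  simp only [Submodule.mem_iInf]
  intro v _
  refine core (f.comp (pcst F G lam)) v (i := Fin.castAdd (q + 1)) (j := Fin.natAdd (d + 1))
    (Fin.natAdd_injective _ _) (fun k => ?_) hzF hzG hgF hgG hαG hin
    (x := xL f) hT (k := k) (fun l => ?_) (c := f (pcst F G lam lam)) ?_ ?_
  · refine Fin.addCases (fun l => Or.inl ⟨l, rfl⟩) (fun l => Or.inr ⟨l, rfl⟩) k
  · rw [Fin.append_left, ← (hom_x f).1, ← (hom_x f).1]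
    unfold entx
    rw [map_div, Units.val_div_eq_div_val]
    rfl
  · exact int_map (f.comp (pcst F G lam)) v hlam
  · simp only [Fin.append_right]
    exact eq_yx f

theorem symB_mem (hzF : ∀ e i, ∃ n : ℕ, 0 < n ∧ F.z e i ^ n = 1)
    (hzG : ∀ e i, ∃ n : ℕ, 0 < n ∧ G.z e i ^ n = 1) (hgG : ∀ k, IsIntegral ℤ (G.g.coeff k))
    (hgF : F.g = 1) (hαF : ∀ e, F.al e ≠ 0) (hin : Inner F) (hlam : IsIntegral ℤ lam⁻¹)
    (hl0 : lam ≠ 0) {T : Fin (q + 1) → Fin m'} (hT : (G.mat T).det ≠ 0)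
    (k : ∀ l, Fin (G.r (T l))) :
    KQ.map (d + 1 + (q + 1)) f (symb (Fin.append (ux F G lam) (enty F G lam T k))) ∈
      Unramified L (d + 1 + (q + 1)) := by
  rw [KQ.map_symb]
  unfold Unramified
  simp only [Submodule.mem_iInf]
  intro v _
  refine core (f.comp (pcst F G lam)) v (i := Fin.natAdd (d + 1)) (j := Fin.castAdd (q + 1))
    (Fin.castAdd_injective _ _) (fun k => ?_) hzG hzF hgG hgF hαF hin
    (x := yL f) hT (k := k) (fun l => ?_) (c := f (pcst F G lam lam⁻¹)) ?_ ?_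
  · refine Fin.addCases (fun l => Or.inr ⟨l, rfl⟩) (fun l => Or.inl ⟨l, rfl⟩) k
  · rw [Fin.append_right, ← (hom_y f).1, ← (hom_y f).1]
    unfold enty
    rw [map_div, Units.val_div_eq_div_val]
    rfl
  · exact int_map (f.comp (pcst F G lam)) v hlam
  · simp only [Fin.append_left]
    rw [eq_yx f, ← mul_assoc, ← map_mul, ← map_mul, inv_mul_cancel₀ hl0, map_one, map_one, one_mul]
    rfl

end main

end Pool.Agent.K7.H1.PP
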